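import Pool.Agent.Q30.PA.Ping
import Pool.Agent.Q27.FJT.AmgTree
import Pool.Agent.Q182.CylDefs
import Pool.Agent.Helper270.Tree

/-!
# Amalgamated products with finite stabilizers of long paths
-/

set_option autoImplicit false

namespace Q30.PA

open SimpleGraph Monoid
open Pool.Agent.Y110.FJ (Amg ClosedE)
open Q27.FJT
open Pool.Agent.Helper270.Tree (TreeAct)
open Q182.Cyl (ClosedA)

section chain

variable {G : Type} [Group G] {A B K : Subgroup G}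

theorem treeAct (h : Amg A B K) : TreeAct G (atree A B) :=
  ⟨isTree h, fun g _ _ hvw => atree_adj g hvw, fun g v w hvw => noInv g v w hvw⟩

/-- `f` fixes the edge `w` -/
def Ok (A B : Subgroup G) (f w : G) : Prop := w⁻¹ * f * w ∈ A ∧ w⁻¹ * f * w ∈ B

theorem adj_vA {g : G} {z : VV A B} (h : (atree A B).Adj (vA A B g) z) :
    ∃ a ∈ A, z = vB A B (g * a) := by
  obtain ⟨x, h | h⟩ := h
  · refine ⟨g⁻¹ * x, vA_eq.1 h.1, ?_⟩
    rw [h.2, mul_inv_cancel_left]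
  · exact absurd h.2 Sum.inl_ne_inr

theorem adj_vB {g : G} {z : VV A B} (h : (atree A B).Adj (vB A B g) z) :
    ∃ b ∈ B, z = vA A B (g * b) := by
  obtain ⟨x, h | h⟩ := h
  · exact absurd h.1.symm Sum.inl_ne_inr
  · refine ⟨g⁻¹ * x, vB_eq.1 h.2, ?_⟩
    rw [h.1, mul_inv_cancel_left]

theorem fix_vA {f g : G} : f • vA A B g = vA A B g ↔ g⁻¹ * f * g ∈ A := by
  rw [smul_vA, vA_eq, ← inv_mem_iff]
  have : ((f * g)⁻¹ * g)⁻¹ = g⁻¹ * f * g := by group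
  rw [this]

theorem fix_vB {f g : G} : f • vB A B g = vB A B g ↔ g⁻¹ * f * g ∈ B := by
  rw [smul_vB, vB_eq, ← inv_mem_iff]
  have : ((f * g)⁻¹ * g)⁻¹ = g⁻¹ * f * g := by group
  rw [this]

theorem vA_mul {g a : G} (ha : a ∈ A) : vA A B (g * a) = vA A B g := by
  rw [vA_eq, ← inv_mem_iff]
  have : ((g * a)⁻¹ * g)⁻¹ = a := by group
  rwa [this]

theorem vB_mul {g b : G} (hb : b ∈ B) : vB A B (g * b) = vB A B g := by
  rw [vB_eq, ← inv_mem_iff]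
  have : ((g * b)⁻¹ * g)⁻¹ = b := by group
  rwa [this]

theorem stepB {x y z : VV A B} {g : G} (hx : x = vA A B g) (hy : y = vB A B g)
    (hyz : (atree A B).Adj y z) (hne : x ≠ z) :
    ∃ b, b ∈ B ∧ b ∉ A ∧ y = vB A B (g * b) ∧ z = vA A B (g * b) := by
  rw [hy] at hyz
  obtain ⟨b, hb, hz⟩ := adj_vB hyz
  refine ⟨b, hb, fun ha => hne ?_, by rw [hy, vB_mul hb], hz⟩
  rw [hx, hz, vA_mul ha]

theorem stepA {x y z : VV A B} {g : G} (hx : x = vB A B g) (hy : y = vA A B g)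
    (hyz : (atree A B).Adj y z) (hne : x ≠ z) :
    ∃ a, a ∈ A ∧ a ∉ B ∧ y = vA A B (g * a) ∧ z = vB A B (g * a) := by
  rw [hy] at hyz
  obtain ⟨a, ha, hz⟩ := adj_vA hyz
  refine ⟨a, ha, fun hb => hne ?_, by rw [hy, vA_mul ha], hz⟩
  rw [hx, hz, vB_mul hb]

theorem exists_geod (h : Amg A B K) {v w : VV A B} {n : ℕ} (hd : n ≤ (atree A B).dist v w) :
    ∃ x : ℕ → VV A B, (∀ i, i < n → (atree A B).Adj (x i) (x (i + 1))) ∧
      (∀ i, i + 2 ≤ n → x i ≠ x (i + 2)) ∧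
      ∀ f : G, f • v = v → f • w = w → ∀ i, i ≤ n → f • x i = x i := by
  have hT := isTree h
  obtain ⟨p, hp⟩ := hT.connected.exists_walk_length_eq_dist v w
  have hpp : p.IsPath := Walk.isPath_of_length_eq_dist p hp
  have h1 : ∀ i, i ≤ p.length → (atree A B).dist v (p.getVert i) = i ∧
      (atree A B).dist (p.getVert i) w = p.length - i := by
    intro i hi
    have e1 : (atree A B).dist v (p.getVert i) ≤ i := by
      have := SimpleGraph.dist_le (p.take i)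
      rwa [Walk.take_length, min_eq_left hi] at this
    have e2 : (atree A B).dist (p.getVert i) w ≤ p.length - i := by
      have := SimpleGraph.dist_le (p.drop i)
      rwa [Walk.drop_length] at this
    have e3 := hT.connected.dist_triangle (u := v) (v := p.getVert i) (w := w)
    omega
  refine ⟨p.getVert, fun i hi => p.adj_getVert_succ (by omega), fun i hi he => ?_, ?_⟩
  · have e1 := (h1 i (by omega)).1
    have e2 := (h1 (i + 2) (by omega)).1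
    rw [he, e2] at e1
    omega
  · intro f hv hw i hi
    obtain ⟨e1, e2⟩ := h1 i (by omega)
    exact (treeAct h).convex hv hw (by omega)

theorem exists_chain (h : Amg A B K) {v w : VV A B} (hd : 8 ≤ (atree A B).dist v w) :
    ∃ g b₁ a₁ b₂ a₂ b₃ a₃ : G, (b₁ ∈ B ∧ b₁ ∉ A) ∧ (a₁ ∈ A ∧ a₁ ∉ B) ∧ (b₂ ∈ B ∧ b₂ ∉ A) ∧
      (a₂ ∈ A ∧ a₂ ∉ B) ∧ (b₃ ∈ B ∧ b₃ ∉ A) ∧ (a₃ ∈ A ∧ a₃ ∉ B) ∧
      ∀ f : G, f • v = v → f • w = w → Ok A B f g ∧ Ok A B f (g * b₁) ∧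
        Ok A B f (g * b₁ * a₁) ∧ Ok A B f (g * b₁ * a₁ * b₂) ∧ Ok A B f (g * b₁ * a₁ * b₂ * a₂) ∧
        Ok A B f (g * b₁ * a₁ * b₂ * a₂ * b₃) ∧ Ok A B f (g * b₁ * a₁ * b₂ * a₂ * b₃ * a₃) := by
  obtain ⟨x, hadj, hne, hfix⟩ := exists_geod h hd
  obtain ⟨s, hs, g₀, hg₀⟩ : ∃ s, s ≤ 1 ∧ ∃ g, x s = vA A B g := by
    rcases vertex_cases (x 0) with ⟨g, hg⟩ | ⟨g, hg⟩
    · exact ⟨0, by omega, g, hg⟩
    · have h1 := hadj 0 (by omega)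
      rw [hg] at h1
      obtain ⟨b, -, hz⟩ := adj_vB h1
      exact ⟨1, le_rfl, _, hz⟩
  have e0 := hadj s (by omega)
  rw [hg₀] at e0
  obtain ⟨a₀, ha₀, hg₁⟩ := adj_vA e0
  rw [← vA_mul (B := B) ha₀] at hg₀
  obtain ⟨g, hg⟩ : ∃ g, g = g₀ * a₀ := ⟨_, rfl⟩
  rw [← hg] at hg₀ hg₁
  obtain ⟨b₁, hb₁, hb₁', p1, q1⟩ := stepB hg₀ hg₁ (hadj (s + 1) (by omega)) (hne s (by omega))
  obtain ⟨a₁, ha₁, ha₁', p2, q2⟩ := stepA p1 q1 (hadj (s + 2) (by omega)) (hne (s + 1) (by omega))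
  obtain ⟨b₂, hb₂, hb₂', p3, q3⟩ := stepB p2 q2 (hadj (s + 3) (by omega)) (hne (s + 2) (by omega))
  obtain ⟨a₂, ha₂, ha₂', p4, q4⟩ := stepA p3 q3 (hadj (s + 4) (by omega)) (hne (s + 3) (by omega))
  obtain ⟨b₃, hb₃, hb₃', p5, q5⟩ := stepB p4 q4 (hadj (s + 5) (by omega)) (hne (s + 4) (by omega))
  obtain ⟨a₃, ha₃, ha₃', p6, q6⟩ := stepA p5 q5 (hadj (s + 6) (by omega)) (hne (s + 5) (by omega))
  refine ⟨g, b₁, a₁, b₂, a₂, b₃, a₃, ⟨hb₁, hb₁'⟩, ⟨ha₁, ha₁'⟩, ⟨hb₂, hb₂'⟩, ⟨ha₂, ha₂'⟩,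
    ⟨hb₃, hb₃'⟩, ⟨ha₃, ha₃'⟩, fun f hv hw => ?_⟩
  have key := hfix f hv hw
  refine ⟨⟨?_, ?_⟩, ⟨?_, ?_⟩, ⟨?_, ?_⟩, ⟨?_, ?_⟩, ⟨?_, ?_⟩, ⟨?_, ?_⟩, ⟨?_, ?_⟩⟩
  · rw [← fix_vA (B := B), ← hg₀]; exact key _ (by omega)
  · rw [← fix_vB (A := A), ← hg₁]; exact key _ (by omega)
  · rw [← fix_vA (B := B), ← q1]; exact key _ (by omega)
  · rw [← fix_vB (A := A), ← p1]; exact key _ (by omega)
  · rw [← fix_vA (B := B), ← p2]; exact key _ (by omega)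
  · rw [← fix_vB (A := A), ← q2]; exact key _ (by omega)
  · rw [← fix_vA (B := B), ← q3]; exact key _ (by omega)
  · rw [← fix_vB (A := A), ← p3]; exact key _ (by omega)
  · rw [← fix_vA (B := B), ← p4]; exact key _ (by omega)
  · rw [← fix_vB (A := A), ← q4]; exact key _ (by omega)
  · rw [← fix_vA (B := B), ← q5]; exact key _ (by omega)
  · rw [← fix_vB (A := A), ← p5]; exact key _ (by omega)
  · rw [← fix_vA (B := B), ← p6]; exact key _ (by omega)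
  · rw [← fix_vB (A := A), ← q6]; exact key _ (by omega)

/-- the elements which fix the edges `1, b₁, b₁a₁, …` -/
def chainSet (A B : Subgroup G) (b₁ a₁ b₂ a₂ b₃ a₃ : G) : Set G :=
  {f | Ok A B f 1 ∧ Ok A B f b₁ ∧ Ok A B f (b₁ * a₁) ∧ Ok A B f (b₁ * a₁ * b₂) ∧
    Ok A B f (b₁ * a₁ * b₂ * a₂) ∧ Ok A B f (b₁ * a₁ * b₂ * a₂ * b₃) ∧
    Ok A B f (b₁ * a₁ * b₂ * a₂ * b₃ * a₃)}

/-- all chain sets are finite -/
def FinChains (A B : Subgroup G) : Prop :=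
  ∀ b₁ a₁ b₂ a₂ b₃ a₃ : G, (b₁ ∈ B ∧ b₁ ∉ A) → (a₁ ∈ A ∧ a₁ ∉ B) → (b₂ ∈ B ∧ b₂ ∉ A) →
    (a₂ ∈ A ∧ a₂ ∉ B) → (b₃ ∈ B ∧ b₃ ∉ A) → (a₃ ∈ A ∧ a₃ ∉ B) →
    (chainSet A B b₁ a₁ b₂ a₂ b₃ a₃).Finite

theorem Ok.conj {f g w : G} (h : Ok A B f (g * w)) : Ok A B (g⁻¹ * f * g) w := by
  have : w⁻¹ * (g⁻¹ * f * g) * w = (g * w)⁻¹ * f * (g * w) := by group
  unfold Ok
  rw [this]
  exact h

theorem finite_stab (h : Amg A B K) (hfin : FinChains A B) (v w : VV A B)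
    (hd : 8 ≤ (atree A B).dist v w) : {f : G | f • v = v ∧ f • w = w}.Finite := by
  obtain ⟨g, b₁, a₁, b₂, a₂, b₃, a₃, h1, h2, h3, h4, h5, h6, key⟩ := exists_chain h hd
  have hS := hfin b₁ a₁ b₂ a₂ b₃ a₃ h1 h2 h3 h4 h5 h6
  have hinj : Function.Injective fun f : G => g⁻¹ * f * g := by
    intro x y hxy
    simpa using hxy
  refine (hS.preimage hinj.injOn).subset ?_
  rintro f ⟨hv, hw⟩
  obtain ⟨k0, k1, k2, k3, k4, k5, k6⟩ := key f hv hw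
  refine ⟨Ok.conj (by rwa [mul_one]), Ok.conj k1, Ok.conj ?_, Ok.conj ?_, Ok.conj ?_, Ok.conj ?_,
    Ok.conj ?_⟩
  · simpa only [mul_assoc] using k2
  · simpa only [mul_assoc] using k3
  · simpa only [mul_assoc] using k4
  · simpa only [mul_assoc] using k5
  · simpa only [mul_assoc] using k6

end chain

end Q30.PA
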