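import Pool.Agent.Q30.PA.Steps
import Pool.Agent.Q30.PA.Chain

/-!
# The stabilizers of long paths are finite
-/

set_option autoImplicit false

namespace Q30.PA

open Polynomial

variable {k : Type} [Field k]

theorem rel (f w l : Equiv.Perm (k × k)) :
    (w⁻¹ * f * w) * l = l * ((w * l)⁻¹ * f * (w * l)) := by group

theorem rel_inv {f f' a : Equiv.Perm (k × k)} (h : f * a = a * f') : f' * a⁻¹ = a⁻¹ * f := by
  have h1 : f' = a⁻¹ * (f * a) := by rw [h]; group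
  rw [h1]
  group

section inf

variable [Infinite k]

theorem exists_ne {q : k[X]} (hq : q ≠ 0) : ∃ x, q.eval x ≠ 0 := by
  by_contra h
  push Not at h
  exact hq (Polynomial.funext fun x => by rw [h, eval_zero])

theorem hexp {a : Equiv.Perm (k × k)} (ha : a ∈ Hg k) (haJ : a ∉ Jon k) :
    ∃ i i' : ℕ, 1 ≤ i ∧ 1 ≤ i' ∧
      ∀ {f f' : Equiv.Perm (k × k)} {α δ ε α' δ' ε' : k} {p p' : k[X]},
      Par f α δ ε p → Par f' α' δ' ε' p' → Ac p → Ac p' → f * a = a * f' →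
      δ = α' ^ i ∧ δ' = α ^ i' := by
  obtain ⟨⟨A, B, Cc, D, e, g, hA, hB, hC, hD, hae⟩, ⟨A', B', C', D', e', g', hA', hB', hC', hD', hae'⟩⟩ :=
    Hg_AdF ha
  have h1 : Cc ≠ 0 := c_ne hA hB hC hD hae (Hg_AdF ha).2 haJ
  have h2 : C' ≠ 0 := c_ne hA' hB' hC' hD' hae' (by rw [inv_inv]; exact (Hg_AdF ha).1)
    (fun h => haJ (by simpa using inv_mem h))
  have h3 : Cc.coeff Cc.natDegree ≠ 0 := by
    rw [coeff_natDegree]
    exact leadingCoeff_ne_zero.2 h1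
  have h4 : C'.coeff C'.natDegree ≠ 0 := by
    rw [coeff_natDegree]
    exact leadingCoeff_ne_zero.2 h2
  refine ⟨Cc.natDegree, C'.natDegree, pos_of_ne hC h1, pos_of_ne hC' h2, ?_⟩
  intro f f' α δ ε α' δ' ε' p p' hf hf' hp hp' h
  obtain ⟨q, c, hq, rfl⟩ := hp
  obtain ⟨q', c', hq', rfl⟩ := hp'
  exact ⟨exp_of h3 (hstep hf hf' hq hA hC hae h).1,
    exp_of h4 (hstep hf' hf hq' hA' hC' hae' (rel_inv h)).1⟩

theorem huni {a : Equiv.Perm (k × k)} (ha : a ∈ Hg k) (haJ : a ∉ Jon k) :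
    ∃ Cc D : k[X], 0 < Cc.natDegree ∧
      ∀ {f f' : Equiv.Perm (k × k)} {ε α' δ' ε' : k} {p p' : k[X]},
      Par f 1 1 ε p → Par f' α' δ' ε' p' → Ac p → Ac p' → f * a = a * f' →
      α' = 1 ∧ δ' = 1 ∧ ∃ c c', p = C c ∧ p' = C c' ∧ Cc.eval c' + D.eval ε' = ε := by
  obtain ⟨⟨A, B, Cc, D, e, g, hA, hB, hC, hD, hae⟩, ⟨A', B', C', D', e', g', hA', hB', hC', hD', hae'⟩⟩ :=
    Hg_AdF ha
  have h1 : Cc ≠ 0 := c_ne hA hB hC hD hae (Hg_AdF ha).2 haJ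
  have h2 : C' ≠ 0 := c_ne hA' hB' hC' hD' hae' (by rw [inv_inv]; exact (Hg_AdF ha).1)
    (fun h => haJ (by simpa using inv_mem h))
  refine ⟨Cc, D, pos_of_ne hC h1, ?_⟩
  intro f f' ε α' δ' ε' p p' hf hf' hp hp' h
  obtain ⟨q, c, hq, rfl⟩ := hp
  obtain ⟨q', c', hq', rfl⟩ := hp'
  obtain ⟨k1, k2, k3⟩ := hstep hf hf' hq hA hC hae h
  obtain ⟨l1, l2, -⟩ := hstep hf' hf hq' hA' hC' hae' (rel_inv h)
  have hα' : α' = 1 := by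
    by_contra hne
    apply h1
    apply Polynomial.funext
    intro z
    have hne' : α' - 1 ≠ 0 := sub_ne_zero.2 hne
    have h3 := k1 (z / (α' - 1))
    have h4 := hC.at_sub (α' * (z / (α' - 1))) (z / (α' - 1))
    have h5 : α' * (z / (α' - 1)) - z / (α' - 1) = z := by
      field_simp
    rw [h5] at h4
    rw [h4, ← h3, one_mul, sub_self, eval_zero]
  have hδ' : δ' = 1 := by
    obtain ⟨x, hx⟩ := exists_ne h2
    have h3 := l1 x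
    rw [one_mul] at h3
    exact mul_right_cancel₀ hx (by rw [h3, one_mul])
  have hq0 : q = 0 := by
    apply eq_zero_of_comp (pos_of_ne hC h1)
    intro x
    have h3 := k2 x
    rw [hα', one_mul, one_mul] at h3
    exact add_eq_left.1 h3
  have hq0' : q' = 0 := by
    apply eq_zero_of_comp (pos_of_ne hC' h2)
    intro x
    have h3 := l2 x
    rw [hα', one_mul, one_mul] at h3
    exact add_eq_left.1 h3
  refine ⟨hα', hδ', c, c', by rw [hq0, zero_add], by rw [hq0', zero_add], ?_⟩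
  rw [hq0', hC.at_zero, hD.at_zero, eval_zero] at k3
  rw [zero_add, zero_add, zero_add] at k3
  linear_combination -k3

theorem finite_pow {N : ℕ} (hN : 2 ≤ N) : {δ : k | δ = δ ^ N}.Finite := by
  have h1 : (X ^ N - X : k[X]).natDegree = N := by
    rw [natDegree_sub_eq_left_of_natDegree_lt]
    · exact natDegree_X_pow N
    · rw [natDegree_X, natDegree_X_pow]
      omega
  refine (finite_preimage (c := (X ^ N - X : k[X])) (by omega) (Set.finite_singleton 0)).subset ?_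
  intro δ hδ
  have hδ' : δ = δ ^ N := hδ
  show eval δ (X ^ N - X) = 0
  rw [eval_sub, eval_pow, eval_X, ← hδ', sub_self]

/-- the multipliers -/
def mu (f : Equiv.Perm (k × k)) : k × k :=
  ((f (1, 0)).1 - (f (0, 0)).1, (f (0, 1)).2 - (f (0, 0)).2)

omit [Infinite k] in
theorem mu_par {f : Equiv.Perm (k × k)} {α δ ε : k} {p : k[X]} (hf : Par f α δ ε p) :
    mu f = (α, δ) := by
  unfold mu
  rw [hf, hf, hf]
  ext <;> simp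

/-- translations -/
def tr (v : k × k) : Equiv.Perm (k × k) := Equiv.addRight v

omit [Infinite k] in
theorem eq_tr {f : Equiv.Perm (k × k)} {c ε : k} (hf : Par f 1 1 ε (C c)) : f = tr (c, ε) := by
  apply Equiv.ext
  rintro ⟨x, y⟩
  rw [hf]
  show _ = (x, y) + (c, ε)
  rw [one_mul, one_mul, eval_C]
  rfl

omit [Infinite k] in
theorem Ok.inv_mul {G : Type} [Group G] {A B : Subgroup G} {f g w : G} (hf : Ok A B f w)
    (hg : Ok A B g w) : Ok A B (f⁻¹ * g) w := by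
  have h1 : w⁻¹ * (f⁻¹ * g) * w = (w⁻¹ * f * w)⁻¹ * (w⁻¹ * g * w) := by group
  unfold Ok
  rw [h1]
  exact ⟨mul_mem (inv_mem hf.1) hg.1, mul_mem (inv_mem hf.2) hg.2⟩

theorem okD {f w : Equiv.Perm (k × k)} (h : Ok (Hg k) (Jon k) f w) : DjF (w⁻¹ * f * w) :=
  inter₂ h.1 h.2

theorem finChains : FinChains (Hg k) (Jon k) := by
  intro b₁ a₁ b₂ a₂ b₃ a₃ hb₁ ha₁ hb₂ ha₂ hb₃ ha₃
  -- the unipotent part
  have hU : {f | f ∈ chainSet (Hg k) (Jon k) b₁ a₁ b₂ a₂ b₃ a₃ ∧ mu f = (1, 1)}.Finite := by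
    obtain ⟨m₁, -, J₁⟩ := jexp hb₁.1 hb₁.2
    obtain ⟨C₁, D₁, -, H₁⟩ := huni ha₁.1 ha₁.2
    obtain ⟨C₂, D₂, hC₂, H₂⟩ := huni ha₂.1 ha₂.2
    obtain ⟨C₃, D₃, -, H₃⟩ := huni ha₃.1 ha₃.2
    obtain ⟨x₂, y₂, z₂, P₂, hx₂, hy₂, hb₂e⟩ := hb₂.1
    obtain ⟨x₃, y₃, z₃, P₃, hx₃, hy₃, hb₃e⟩ := hb₃.1
    have hP₂ : ¬ Ac P₂ := not_ac_of hx₂ hy₂ hb₂e fun h => hb₂.2 (Dj_le_Hg h)
    have hP₃ : ¬ Ac P₃ := not_ac_of hx₃ hy₃ hb₃e fun h => hb₃.2 (Dj_le_Hg h)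
    obtain ⟨E, hE⟩ : ∃ E, E = {ε : k | ∃ c, ∀ y, P₃.eval (y + ε) = P₃.eval y + c} := ⟨_, rfl⟩
    have hEf : E.Finite := by rw [hE]; exact finite_periods hP₃
    obtain ⟨E', hE'⟩ : ∃ E', E' = {ε : k | ∃ c, ∀ y, P₂.eval (y + ε) = P₂.eval y + c} := ⟨_, rfl⟩
    have hEf' : E'.Finite := by rw [hE']; exact finite_periods hP₂
    -- the possible translations
    have hF1 : ((fun ε => y₃ * ε) '' E).Finite := hEf.image _
    have hF2 : (Set.image2 (fun ε ε' => ε - D₂.eval ε') E' ((fun ε => y₃ * ε) '' E)).Finite :=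
      hEf'.image2 _ hF1
    have hF3 := finite_preimage hC₂ hF2
    have hF4 := hF3.prod hF1
    have hF5 := hF4.image (fun v => (b₁ * a₁ * b₂ * a₂) * tr v * (b₁ * a₁ * b₂ * a₂)⁻¹)
    refine hF5.subset ?_
    rintro f ⟨⟨k0, k1, k2, k3, k4, k5, k6⟩, hmu⟩
    obtain ⟨α₀, δ₀, ε₀, p₀, -, hδ₀, hp₀, f₀⟩ := okD k0
    obtain ⟨α₁, δ₁, ε₁, p₁, -, hδ₁, hp₁, f₁⟩ := okD k1
    obtain ⟨α₂, δ₂, ε₂, p₂, -, hδ₂, hp₂, f₂⟩ := okD k2
    obtain ⟨α₃, δ₃, ε₃, p₃, -, hδ₃, hp₃, f₃⟩ := okD k3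
    obtain ⟨α₄, δ₄, ε₄, p₄, -, hδ₄, hp₄, f₄⟩ := okD k4
    obtain ⟨α₅, δ₅, ε₅, p₅, -, hδ₅, hp₅, f₅⟩ := okD k5
    obtain ⟨α₆, δ₆, ε₆, p₆, -, hδ₆, hp₆, f₆⟩ := okD k6
    have hm0 : α₀ = 1 ∧ δ₀ = 1 := by
      have h1 := mu_par f₀
      rw [inv_one, one_mul, mul_one, hmu] at h1
      exact ⟨(congrArg Prod.fst h1).symm, (congrArg Prod.snd h1).symm⟩
    have r0 := rel f 1 b₁
    rw [one_mul] at r0
    obtain ⟨-, e1, e1'⟩ := J₁ f₀ f₁ hδ₀ hp₀ hp₁ r0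
    rw [hm0.1] at e1
    rw [hm0.2] at e1'
    subst e1 e1'
    obtain ⟨e2, e2', c₁, c₂, hc₁, hc₂, -⟩ := H₁ f₁ f₂ hp₁ hp₂ (rel f _ _)
    subst e2 e2' hc₁ hc₂
    obtain ⟨e3, e3', s3, t3⟩ := jstep f₂ f₃ hb₂e hx₂ hy₂ (rel f _ _)
    subst e3 e3'
    obtain ⟨e4, e4', c₃, c₄, hc₃, hc₄, s4⟩ := H₂ f₃ f₄ hp₃ hp₄ (rel f _ _)
    subst e4 e4' hc₃ hc₄
    obtain ⟨e5, e5', s5, t5⟩ := jstep f₄ f₅ hb₃e hx₃ hy₃ (rel f _ _)
    subst e5 e5'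
    obtain ⟨e6, e6', c₅, c₆, hc₅, hc₆, -⟩ := H₃ f₅ f₆ hp₅ hp₆ (rel f _ _)
    subst hc₅
    have hε₃ : ε₃ ∈ E' := by
      rw [hE']
      refine ⟨c₂ - x₂ * c₃, fun y => ?_⟩
      have h1 := t3 y
      rw [eval_C, eval_C, one_mul, one_mul] at h1
      linear_combination -h1
    have hε₅ : ε₅ ∈ E := by
      rw [hE]
      refine ⟨c₄ - x₃ * c₅, fun y => ?_⟩
      have h1 := t5 y
      rw [eval_C, eval_C, one_mul, one_mul] at h1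
      linear_combination -h1
    have hε₄ : ε₄ ∈ (fun ε => y₃ * ε) '' E := by
      refine ⟨ε₅, hε₅, ?_⟩
      show y₃ * ε₅ = ε₄
      linear_combination -s5
    have hc₄' : c₄ ∈ {x | C₂.eval x ∈ Set.image2 (fun ε ε' => ε - D₂.eval ε') E'
        ((fun ε => y₃ * ε) '' E)} := by
      refine ⟨ε₃, hε₃, ε₄, hε₄, ?_⟩
      show ε₃ - D₂.eval ε₄ = C₂.eval c₄
      rw [← s4]
      ring
    refine ⟨(c₄, ε₄), ⟨hc₄', hε₄⟩, ?_⟩
    show (b₁ * a₁ * b₂ * a₂) * tr (c₄, ε₄) * (b₁ * a₁ * b₂ * a₂)⁻¹ = f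
    rw [← eq_tr f₄]
    group
  -- the multipliers
  obtain ⟨m₁, hm₁, J₁⟩ := jexp hb₁.1 hb₁.2
  obtain ⟨i, i', hi, hi', H₁⟩ := hexp ha₁.1 ha₁.2
  obtain ⟨m₂, hm₂, J₂⟩ := jexp hb₂.1 hb₂.2
  refine Set.Finite.of_finite_fibers mu ?_ ?_
  · have hN : 2 ≤ m₁ * (i' * m₂ * i) := by
      have h1 : 1 ≤ i' * m₂ * i := Nat.one_le_iff_ne_zero.2
        (by positivity)
      nlinarith
    refine ((finite_pow (k := k) hN).image fun δ => (δ ^ m₁, δ)).subset ?_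
    rintro _ ⟨f, ⟨k0, k1, k2, k3, -⟩, rfl⟩
    obtain ⟨α₀, δ₀, ε₀, p₀, -, hδ₀, hp₀, f₀⟩ := okD k0
    obtain ⟨α₁, δ₁, ε₁, p₁, -, hδ₁, hp₁, f₁⟩ := okD k1
    obtain ⟨α₂, δ₂, ε₂, p₂, -, hδ₂, hp₂, f₂⟩ := okD k2
    obtain ⟨α₃, δ₃, ε₃, p₃, -, hδ₃, hp₃, f₃⟩ := okD k3
    have r0 := rel f 1 b₁
    rw [one_mul] at r0
    obtain ⟨e0, e1, e1'⟩ := J₁ f₀ f₁ hδ₀ hp₀ hp₁ r0
    obtain ⟨e2, e2'⟩ := H₁ f₁ f₂ hp₁ hp₂ (rel f _ _)
    obtain ⟨e3, -, -⟩ := J₂ f₂ f₃ hδ₂ hp₂ hp₃ (rel f _ _)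
    have hmu := mu_par f₀
    rw [inv_one, one_mul, mul_one] at hmu
    refine ⟨δ₀, ?_, by rw [hmu, e0]⟩
    show δ₀ = δ₀ ^ (m₁ * (i' * m₂ * i))
    rw [pow_mul, ← e0, pow_mul, pow_mul, ← e1, ← e2', ← e3, ← e2, e1']
  · rintro _ ⟨f, hf, rfl⟩
    refine (hU.image fun g => f * g).subset ?_
    rintro g ⟨hg, hgm⟩
    have hgm' : mu g = mu f := hgm
    refine ⟨f⁻¹ * g, ⟨?_, ?_⟩, mul_inv_cancel_left f g⟩
    · obtain ⟨k0, k1, k2, k3, k4, k5, k6⟩ := hf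
      obtain ⟨l0, l1, l2, l3, l4, l5, l6⟩ := hg
      exact ⟨k0.inv_mul l0, k1.inv_mul l1, k2.inv_mul l2, k3.inv_mul l3, k4.inv_mul l4,
        k5.inv_mul l5, k6.inv_mul l6⟩
    · obtain ⟨α, δ, ε, p, hα, hδ, hp, hf'⟩ := okD hf.1
      obtain ⟨α', δ', ε', p', hα', hδ', hp', hg'⟩ := okD hg.1
      simp only [inv_one, one_mul, mul_one] at hf' hg'
      have h1 := mu_par hf'
      have h2 := mu_par hg'
      rw [hgm', h1] at h2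
      have h3 : α = α' := congrArg Prod.fst h2
      have h4 : δ = δ' := congrArg Prod.snd h2
      subst h3 h4
      have h5 := mu_par (jon_mul (jon_inv hα hδ hf') hg')
      rw [h5, inv_mul_cancel₀ hα, inv_mul_cancel₀ hδ]

end inf

end Q30.PA
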