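import Pool.Agent.Q30.PA.Poly

/-!
# Groups of polynomial automorphisms of the plane
-/

set_option autoImplicit false

namespace Q30.PA

open Polynomial

variable {k : Type} [Field k]

/-- affine maps -/
def AffF (f : Equiv.Perm (k × k)) : Prop := ∃ a b c d e g : k, a * d - b * c ≠ 0 ∧
  ∀ x y, f (x, y) = (a * x + b * y + e, c * x + d * y + g)

/-- de Jonquières maps -/
def JonF (f : Equiv.Perm (k × k)) : Prop := ∃ (α δ ε : k) (p : k[X]), α ≠ 0 ∧ δ ≠ 0 ∧
  ∀ x y, f (x, y) = (α * x + p.eval y, δ * y + ε)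

/-- additive de Jonquières maps -/
def DjF (f : Equiv.Perm (k × k)) : Prop := ∃ (α δ ε : k) (p : k[X]), α ≠ 0 ∧ δ ≠ 0 ∧ Ac p ∧
  ∀ x y, f (x, y) = (α * x + p.eval y, δ * y + ε)

theorem inv_eq_of {f : Equiv.Perm (k × k)} {u v : k × k} (h : f v = u) : f⁻¹ u = v := by
  rw [Equiv.Perm.inv_eq_iff_eq, h]

variable (k) in
/-- the affine group -/
def Aff : Subgroup (Equiv.Perm (k × k)) where
  carrier := {f | AffF f}
  one_mem' := ⟨1, 0, 0, 1, 0, 0, by simp, fun x y => by simp⟩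
  mul_mem' := by
    rintro f f' ⟨a, b, c, d, e, g, h, hf⟩ ⟨a', b', c', d', e', g', h', hf'⟩
    refine ⟨a * a' + b * c', a * b' + b * d', c * a' + d * c', c * b' + d * d',
      a * e' + b * g' + e, c * e' + d * g' + g, ?_, fun x y => ?_⟩
    · have h1 : (a * a' + b * c') * (c * b' + d * d') - (a * b' + b * d') * (c * a' + d * c') =
          (a * d - b * c) * (a' * d' - b' * c') := by ring
      rw [h1]
      exact mul_ne_zero h h'
    · rw [Equiv.Perm.mul_apply, hf', hf]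
      ext <;> simp only <;> ring
  inv_mem' := by
    rintro f ⟨a, b, c, d, e, g, h, hf⟩
    obtain ⟨D, hD⟩ : ∃ D, D = a * d - b * c := ⟨_, rfl⟩
    rw [← hD] at h
    refine ⟨d / D, -b / D, -c / D, a / D, (b * g - d * e) / D, (c * e - a * g) / D, ?_,
      fun x y => ?_⟩
    · have h1 : d / D * (a / D) - -b / D * (-c / D) = D⁻¹ := by
        field_simp
        rw [hD]; ring
      rw [h1]
      exact inv_ne_zero h
    · apply inv_eq_of
      rw [hf]
      ext
      · show a * (d / D * x + -b / D * y + (b * g - d * e) / D) +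
          b * (-c / D * x + a / D * y + (c * e - a * g) / D) + e = x
        field_simp
        rw [hD]; ring
      · show c * (d / D * x + -b / D * y + (b * g - d * e) / D) +
          d * (-c / D * x + a / D * y + (c * e - a * g) / D) + g = y
        field_simp
        rw [hD]; ring

theorem jon_mul {f f' : Equiv.Perm (k × k)} {α δ ε α' δ' ε' : k} {p p' : k[X]}
    (hf : ∀ x y, f (x, y) = (α * x + p.eval y, δ * y + ε))
    (hf' : ∀ x y, f' (x, y) = (α' * x + p'.eval y, δ' * y + ε')) :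
    ∀ x y, (f * f') (x, y) = ((α * α') * x + (C α * p' + p.comp (C δ' * X + C ε')).eval y,
      (δ * δ') * y + (δ * ε' + ε)) := by
  intro x y
  rw [Equiv.Perm.mul_apply, hf', hf]
  ext
  · simp only [eval_add, eval_mul, eval_C, eval_comp, eval_X]
    ring
  · simp only
    ring

theorem jon_inv {f : Equiv.Perm (k × k)} {α δ ε : k} {p : k[X]} (hα : α ≠ 0) (hδ : δ ≠ 0)
    (hf : ∀ x y, f (x, y) = (α * x + p.eval y, δ * y + ε)) :
    ∀ x y, f⁻¹ (x, y) = (α⁻¹ * x + (C (-α⁻¹) * p.comp (C δ⁻¹ * X + C (-(δ⁻¹ * ε)))).eval y,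
      δ⁻¹ * y + -(δ⁻¹ * ε)) := by
  intro x y
  apply inv_eq_of
  rw [hf]
  ext
  · simp only [eval_mul, eval_C, eval_comp, eval_X, eval_add]
    field_simp
    ring
  · simp only
    field_simp
    ring

variable (k) in
/-- the de Jonquières group -/
def Jon : Subgroup (Equiv.Perm (k × k)) where
  carrier := {f | JonF f}
  one_mem' := ⟨1, 1, 0, 0, one_ne_zero, one_ne_zero, fun x y => by simp⟩
  mul_mem' := by
    rintro f f' ⟨α, δ, ε, p, h1, h2, hf⟩ ⟨α', δ', ε', p', h1', h2', hf'⟩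
    exact ⟨_, _, _, _, mul_ne_zero h1 h1', mul_ne_zero h2 h2', jon_mul hf hf'⟩
  inv_mem' := by
    rintro f ⟨α, δ, ε, p, h1, h2, hf⟩
    exact ⟨_, _, _, _, inv_ne_zero h1, inv_ne_zero h2, jon_inv h1 h2 hf⟩

variable (k) in
/-- the additive de Jonquières group -/
def Dj : Subgroup (Equiv.Perm (k × k)) where
  carrier := {f | DjF f}
  one_mem' := ⟨1, 1, 0, 0, one_ne_zero, one_ne_zero, Ac.of_ad IsAd.zero, fun x y => by simp⟩
  mul_mem' := by
    rintro f f' ⟨α, δ, ε, p, h1, h2, hp, hf⟩ ⟨α', δ', ε', p', h1', h2', hp', hf'⟩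
    exact ⟨_, _, _, _, mul_ne_zero h1 h1', mul_ne_zero h2 h2',
      (hp'.smul α).add (hp.comp_lin _ _), jon_mul hf hf'⟩
  inv_mem' := by
    rintro f ⟨α, δ, ε, p, h1, h2, hp, hf⟩
    exact ⟨_, _, _, _, inv_ne_zero h1, inv_ne_zero h2, (hp.comp_lin _ _).smul _,
      jon_inv h1 h2 hf⟩

theorem mem_Aff {f : Equiv.Perm (k × k)} : f ∈ Aff k ↔ AffF f := Iff.rfl
theorem mem_Jon {f : Equiv.Perm (k × k)} : f ∈ Jon k ↔ JonF f := Iff.rfl
theorem mem_Dj {f : Equiv.Perm (k × k)} : f ∈ Dj k ↔ DjF f := Iff.rfl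

theorem Dj_le_Jon : Dj k ≤ Jon k := by
  rintro f ⟨α, δ, ε, p, h1, h2, -, hf⟩
  exact ⟨α, δ, ε, p, h1, h2, hf⟩

variable (k) in
/-- the group generated by the affine maps and the additive de Jonquières maps -/
def Hg : Subgroup (Equiv.Perm (k × k)) := Aff k ⊔ Dj k

/-- maps given by additive polynomials and constants -/
def AdF (f : Equiv.Perm (k × k)) : Prop := ∃ (a b c d : k[X]) (e g : k), IsAd a ∧ IsAd b ∧ IsAd c ∧
  IsAd d ∧ ∀ x y, f (x, y) = (a.eval x + b.eval y + e, c.eval x + d.eval y + g)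

theorem AdF.mul {f f' : Equiv.Perm (k × k)} (h : AdF f) (h' : AdF f') : AdF (f * f') := by
  obtain ⟨a, b, c, d, e, g, ha, hb, hc, hd, hf⟩ := h
  obtain ⟨a', b', c', d', e', g', ha', hb', hc', hd', hf'⟩ := h'
  refine ⟨a.comp a' + b.comp c', a.comp b' + b.comp d', c.comp a' + d.comp c',
    c.comp b' + d.comp d', a.eval e' + b.eval g' + e, c.eval e' + d.eval g' + g,
    (ha.comp ha').add (hb.comp hc'), (ha.comp hb').add (hb.comp hd'),
    (hc.comp ha').add (hd.comp hc'), (hc.comp hb').add (hd.comp hd'), fun x y => ?_⟩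
  rw [Equiv.Perm.mul_apply, hf', hf, ha, ha, hb, hb, hc, hc, hd, hd]
  ext <;> simp only [eval_add, eval_comp] <;> ring

theorem Aff_AdF {f : Equiv.Perm (k × k)} (h : f ∈ Aff k) : AdF f := by
  obtain ⟨a, b, c, d, e, g, -, hf⟩ := h
  exact ⟨C a * X, C b * X, C c * X, C d * X, e, g, IsAd.mulX _, IsAd.mulX _, IsAd.mulX _,
    IsAd.mulX _, fun x y => by rw [hf]; simp⟩

theorem Dj_AdF {f : Equiv.Perm (k × k)} (h : f ∈ Dj k) : AdF f := by
  obtain ⟨α, δ, ε, p, h1, h2, ⟨q, c, hq, rfl⟩, hf⟩ := h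
  exact ⟨C α * X, q, 0, C δ * X, c, ε, IsAd.mulX _, hq, IsAd.zero,
    IsAd.mulX _, fun x y => by rw [hf]; simp [add_assoc]⟩

theorem Hg_AdF {f : Equiv.Perm (k × k)} (h : f ∈ Hg k) : AdF f ∧ AdF f⁻¹ := by
  have h1 : Hg k = Subgroup.closure ((Aff k : Set (Equiv.Perm (k × k))) ∪ Dj k) := by
    rw [Subgroup.closure_union, Subgroup.closure_eq, Subgroup.closure_eq, Hg]
  rw [h1] at h
  induction h using Subgroup.closure_induction with
  | mem x hx =>
    rcases hx with hx | hx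
    · exact ⟨Aff_AdF hx, Aff_AdF (inv_mem hx)⟩
    · exact ⟨Dj_AdF hx, Dj_AdF (inv_mem hx)⟩
  | one =>
    rw [inv_one]
    exact ⟨Aff_AdF (one_mem _), Aff_AdF (one_mem _)⟩
  | mul x y _ _ hx hy =>
    rw [mul_inv_rev]
    exact ⟨hx.1.mul hy.1, hy.2.mul hx.2⟩
  | inv x _ hx =>
    rw [inv_inv]
    exact ⟨hx.2, hx.1⟩

end Q30.PA
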