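import Pool.Agent.Q30.PA.Sol
import Pool.Agent.Q30.BT.Red

/-!
# The group generated by the affine and the additive de Jonquières maps is in `C`
-/

set_option autoImplicit false

namespace Q30.PA

open Polynomial Monoid
open Function (Injective)
open Q182.Cyl (ClosedA)

variable {C : ∀ (G : Type) [Group G], Prop} {k : Type} [Field k]

open Classical in
/-- the linear coefficient of a polynomial function -/
noncomputable def co (φ : k → k) : k :=
  if h : ∃ p : k[X], ∀ x, φ x = p.eval x then (Classical.choose h).coeff 1 else 0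

theorem co_eq [Infinite k] {φ : k → k} {p : k[X]} (h : ∀ x, φ x = p.eval x) :
    co φ = p.coeff 1 := by
  have h1 : ∃ p : k[X], ∀ x, φ x = p.eval x := ⟨p, h⟩
  unfold co
  rw [dif_pos h1]
  congr 1
  apply Polynomial.funext
  intro x
  rw [← Classical.choose_spec h1 x, h x]

theorem coeff_one (p : k[X]) : p.coeff 1 = (derivative p).eval 0 := by
  rw [← coeff_zero_eq_eval_zero, coeff_derivative]
  simp

theorem coeff_comp (p q : k[X]) (hq : q.eval 0 = 0) :
    (p.comp q).coeff 1 = p.coeff 1 * q.coeff 1 := by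
  rw [coeff_one, coeff_one, coeff_one, derivative_comp, eval_mul, eval_comp, hq, mul_comm]

/-- the matrix of the linear coefficients -/
noncomputable def mat (f : Equiv.Perm (k × k)) : Matrix (Fin 2) (Fin 2) k :=
  !![co fun x => (f (x, 0)).1, co fun y => (f (0, y)).1;
    co fun x => (f (x, 0)).2, co fun y => (f (0, y)).2]

/-- maps given by additive polynomials -/
def Ad0 (f : Equiv.Perm (k × k)) (a b c d : k[X]) : Prop := IsAd a ∧ IsAd b ∧ IsAd c ∧
  IsAd d ∧ ∀ x y, f (x, y) = (a.eval x + b.eval y, c.eval x + d.eval y)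

theorem Ad0.mat_eq [Infinite k] {f : Equiv.Perm (k × k)} {a b c d : k[X]} (h : Ad0 f a b c d) :
    mat f = !![a.coeff 1, b.coeff 1; c.coeff 1, d.coeff 1] := by
  obtain ⟨ha, hb, hc, hd, hf⟩ := h
  unfold mat
  rw [co_eq (p := a), co_eq (p := b), co_eq (p := c), co_eq (p := d)]
  · intro x; rw [hf, hc.at_zero, zero_add]
  · intro x; rw [hf, hd.at_zero, add_zero]
  · intro x; rw [hf, ha.at_zero, zero_add]
  · intro x; rw [hf, hb.at_zero, add_zero]

theorem Ad0.mul {f f' : Equiv.Perm (k × k)} {a b c d a' b' c' d' : k[X]} (h : Ad0 f a b c d)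
    (h' : Ad0 f' a' b' c' d') : Ad0 (f * f') (a.comp a' + b.comp c') (a.comp b' + b.comp d')
      (c.comp a' + d.comp c') (c.comp b' + d.comp d') := by
  obtain ⟨ha, hb, hc, hd, hf⟩ := h
  obtain ⟨ha', hb', hc', hd', hf'⟩ := h'
  refine ⟨(ha.comp ha').add (hb.comp hc'), (ha.comp hb').add (hb.comp hd'),
    (hc.comp ha').add (hd.comp hc'), (hc.comp hb').add (hd.comp hd'), fun x y => ?_⟩
  rw [Equiv.Perm.mul_apply, hf', hf, ha, hb, hc, hd]
  ext <;> simp only [eval_add, eval_comp] <;> ring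

theorem sup₀_le : (⨆ i, Γ₀ k i) ≤ Hg k := by
  apply iSup_le
  intro i
  cases i
  · exact inf_le_left.trans le_sup_left
  · exact inf_le_left.trans le_sup_right

theorem sup₀_fx : (⨆ i, Γ₀ k i) ≤ Fx k := by
  apply iSup_le
  intro i
  cases i
  · exact inf_le_right
  · exact inf_le_right

theorem exists_ad0 {f : Equiv.Perm (k × k)} (hf : f ∈ ⨆ i, Γ₀ k i) :
    ∃ a b c d, Ad0 f a b c d := by
  obtain ⟨a, b, c, d, e, g, ha, hb, hc, hd, hfe⟩ := (Hg_AdF (sup₀_le hf)).1
  have h0 : f (0, 0) = (0, 0) := sup₀_fx hf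
  rw [hfe, ha.at_zero, hb.at_zero, hc.at_zero, hd.at_zero] at h0
  have h1 : e = 0 := by simpa using congrArg Prod.fst h0
  have h2 : g = 0 := by simpa using congrArg Prod.snd h0
  subst h1 h2
  exact ⟨a, b, c, d, ha, hb, hc, hd, fun x y => by rw [hfe, add_zero, add_zero]⟩

variable (k) in
/-- the linear part -/
noncomputable def rho [Infinite k] : ↥(⨆ i, Γ₀ k i) →* GL (Fin 2) k :=
  MonoidHom.toHomUnits
    { toFun := fun f => mat (f : Equiv.Perm (k × k))
      map_one' := by
        have h : Ad0 (1 : Equiv.Perm (k × k)) X 0 0 X :=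
          ⟨IsAd.idX, IsAd.zero, IsAd.zero, IsAd.idX, fun x y => by simp⟩
        show mat (1 : Equiv.Perm (k × k)) = 1
        rw [h.mat_eq]
        ext i j
        fin_cases i <;> fin_cases j <;> simp
      map_mul' := fun f f' => by
        obtain ⟨a, b, c, d, h⟩ := exists_ad0 f.2
        obtain ⟨a', b', c', d', h'⟩ := exists_ad0 f'.2
        show mat ((f : Equiv.Perm (k × k)) * (f' : Equiv.Perm (k × k))) =
          mat (f : Equiv.Perm (k × k)) * mat (f' : Equiv.Perm (k × k))
        rw [(h.mul h').mat_eq, h.mat_eq, h'.mat_eq]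
        have ha := h'.1.at_zero
        have hb := h'.2.1.at_zero
        have hc := h'.2.2.1.at_zero
        have hd := h'.2.2.2.1.at_zero
        ext i j
        fin_cases i <;> fin_cases j <;>
          simp [coeff_comp, ha, hb, hc, hd, Matrix.mul_apply, Fin.sum_univ_two] }

theorem rho_aff [Infinite k] {f : ↥(⨆ i, Γ₀ k i)} (hf : (f : Equiv.Perm (k × k)) ∈ Aff k)
    (h : rho k f = 1) : f = 1 := by
  have h1 : mat (f : Equiv.Perm (k × k)) = 1 := congrArg Units.val h
  obtain ⟨a, b, c, d, e, g, -, hfe⟩ := hf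
  have h0 : (f : Equiv.Perm (k × k)) (0, 0) = (0, 0) := sup₀_fx f.2
  rw [hfe] at h0
  have h2 : e = 0 := by simpa using congrArg Prod.fst h0
  have h3 : g = 0 := by simpa using congrArg Prod.snd h0
  subst h2 h3
  have h4 : Ad0 (f : Equiv.Perm (k × k)) (C a * X) (C b * X) (C c * X) (C d * X) :=
    ⟨IsAd.mulX _, IsAd.mulX _, IsAd.mulX _, IsAd.mulX _, fun x y => by rw [hfe]; simp⟩
  rw [h4.mat_eq] at h1
  have e1 := congrFun (congrFun h1 0) 0
  have e2 := congrFun (congrFun h1 0) 1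
  have e3 := congrFun (congrFun h1 1) 0
  have e4 := congrFun (congrFun h1 1) 1
  simp at e1 e2 e3 e4
  subst e1 e2 e3 e4
  apply Subtype.ext
  apply Equiv.ext
  rintro ⟨x, y⟩
  rw [hfe]
  simp

theorem sup₀_mem [Infinite k] (hC : ClosedA C)
    (hsol : ∀ (G : Type) [Group G], Group.IsSolvable G → C G) (hGL : C (GL (Fin 2) k)) :
    C ↥(⨆ i, Γ₀ k i) := by
  refine mem_sup_edge hC.base (Γ₀ k) inj₀ ?_ hGL (rho k) fun f h1 _ h => rho_aff h1.1 h
  intro i
  cases i
  · refine hC.base.base.of_injective _ _ ((rho k).comp (Subgroup.inclusion (le_iSup (Γ₀ k) false)))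
      ?_ hGL
    rw [injective_iff_map_eq_one]
    intro f hf
    have h1 := rho_aff (f := Subgroup.inclusion (le_iSup (Γ₀ k) false) f) f.2.1 hf
    exact Subgroup.inclusion_injective _ (h1.trans (map_one _).symm)
  · have hle : Γ₀ k true ≤ Jon k := inf_le_left.trans Dj_le_Jon
    exact hC.base.base.of_injective _ _ (Subgroup.inclusion hle) (Subgroup.inclusion_injective _)
      (hsol _ jon_solvable)

/-! ### the linear part of the elements of `Hg` -/

/-- `f - f(0)` -/
def lp (f : Equiv.Perm (k × k)) : Equiv.Perm (k × k) := f.trans (Equiv.subRight (f (0, 0)))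

theorem lp_apply (f : Equiv.Perm (k × k)) (v : k × k) : lp f v = f v - f (0, 0) := rfl

theorem AdF.sub {f : Equiv.Perm (k × k)} (h : AdF f) (v w : k × k) :
    f v - f w = f (v - w) - f (0, 0) := by
  obtain ⟨a, b, c, d, e, g, ha, hb, hc, hd, hf⟩ := h
  obtain ⟨x, y⟩ := v
  obtain ⟨z, t⟩ := w
  show f (x, y) - f (z, t) = f (x - z, y - t) - f (0, 0)
  rw [hf, hf, hf, hf, ha.at_sub, hb.at_sub, hc.at_sub, hd.at_sub, ha.at_zero, hb.at_zero,
    hc.at_zero, hd.at_zero]
  ext <;> simp only [Prod.fst_sub, Prod.snd_sub] <;> ring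

variable (k) in
/-- the homomorphism to the additive maps -/
def lam : Hg k →* Equiv.Perm (k × k) where
  toFun f := lp f
  map_one' := by
    apply Equiv.ext
    intro v
    show v - (0, 0) = v
    exact sub_zero v
  map_mul' f f' := by
    apply Equiv.ext
    intro v
    show (f : Equiv.Perm (k × k)) ((f' : Equiv.Perm (k × k)) v) -
      (f : Equiv.Perm (k × k)) ((f' : Equiv.Perm (k × k)) (0, 0)) =
      (f : Equiv.Perm (k × k)) ((f' : Equiv.Perm (k × k)) v - (f' : Equiv.Perm (k × k)) (0, 0)) -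
      (f : Equiv.Perm (k × k)) (0, 0)
    exact (Hg_AdF f.2).1.sub _ _

theorem lam_apply (f : Hg k) (v : k × k) : lam k f v = (f : Equiv.Perm (k × k)) v -
    (f : Equiv.Perm (k × k)) (0, 0) := rfl

theorem lp_fx (f : Equiv.Perm (k × k)) : lp f ∈ Fx k := by
  show f (0, 0) - f (0, 0) = (0, 0)
  exact sub_self _

theorem lam_mem (f : Hg k) : lam k f ∈ ⨆ i, Γ₀ k i := by
  have h1 : (⊤ : Subgroup (Hg k)) ≤ (⨆ i, Γ₀ k i).comap (lam k) := by
    have h2 : (Aff k).subgroupOf (Hg k) ⊔ (Dj k).subgroupOf (Hg k) = ⊤ := by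
      rw [← Subgroup.subgroupOf_sup (show Aff k ≤ Hg k from le_sup_left)
        (show Dj k ≤ Hg k from le_sup_right)]
      exact Subgroup.subgroupOf_self _
    rw [← h2, sup_le_iff]
    constructor
    · rintro ⟨f, hf'⟩ hf
      rw [Subgroup.mem_subgroupOf] at hf
      refine (le_iSup (Γ₀ k) false) ⟨?_, lp_fx f⟩
      obtain ⟨a, b, c, d, e, g, hD, hfe⟩ := hf
      have hfe' : ∀ x y, f (x, y) = (a * x + b * y + e, c * x + d * y + g) := hfe
      refine ⟨a, b, c, d, 0, 0, hD, fun x y => ?_⟩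
      show lp f (x, y) = _
      rw [lp_apply, hfe', hfe']
      ext <;> simp
    · rintro ⟨f, hf'⟩ hf
      rw [Subgroup.mem_subgroupOf] at hf
      refine (le_iSup (Γ₀ k) true) ⟨?_, lp_fx f⟩
      obtain ⟨α, δ, ε, p, hα, hδ, hp, hfe⟩ := hf
      have hfe' : ∀ x y, f (x, y) = (α * x + p.eval y, δ * y + ε) := hfe
      refine ⟨α, δ, 0, p - C (p.eval 0), hα, hδ, hp.sub (Ac.const _), fun x y => ?_⟩
      show lp f (x, y) = _
      rw [lp_apply, hfe', hfe']
      ext
      · simp only [Prod.fst_sub, eval_sub, eval_C]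
        ring
      · simp only [Prod.snd_sub]
        ring
  exact h1 trivial

theorem Hg_mem [Infinite k] (hC : ClosedA C)
    (hsol : ∀ (G : Type) [Group G], Group.IsSolvable G → C G) (hGL : C (GL (Fin 2) k)) :
    C (Hg k) := by
  refine Q30.BT.ext_sol hC.base hsol ((lam k).codRestrict _ lam_mem) ?_
    (sup₀_mem hC hsol hGL)
  apply Group.isSolvable_of_comm
  rintro ⟨f, hf⟩ ⟨f', hf'⟩
  have key : ∀ g : Hg k, (lam k).codRestrict (⨆ i, Γ₀ k i) lam_mem g = 1 → ∀ v,
      (g : Equiv.Perm (k × k)) v = v + (g : Equiv.Perm (k × k)) (0, 0) := by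
    intro g hg v
    have h1 : lam k g = 1 := congrArg Subtype.val hg
    have h2 := DFunLike.congr_fun h1 v
    rw [lam_apply] at h2
    exact sub_eq_iff_eq_add.1 h2
  have h1 := key f (MonoidHom.mem_ker.1 hf)
  have h2 := key f' (MonoidHom.mem_ker.1 hf')
  apply Subtype.ext
  apply Subtype.ext
  apply Equiv.ext
  intro v
  show (f : Equiv.Perm (k × k)) ((f' : Equiv.Perm (k × k)) v) =
    (f' : Equiv.Perm (k × k)) ((f : Equiv.Perm (k × k)) v)
  rw [h1 ((f' : Equiv.Perm (k × k)) v), h2 v, h2 ((f : Equiv.Perm (k × k)) v), h1 v]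
  abel

end Q30.PA
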