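import Pool.Agent.Q30.PA.Lin

/-!
# The group of tame automorphisms of the plane
-/

set_option autoImplicit false

namespace Q30.PA

open Polynomial Monoid
open Function (Injective)
open Q182.Cyl (ClosedA)

variable {C : ∀ (G : Type) [Group G], Prop} {k : Type} [Field k]

/-- elementary maps -/
def ElF (f : Equiv.Perm (k × k)) : Prop := ∃ p : k[X], ∀ x y, f (x, y) = (x + p.eval y, y)

variable (k) in
/-- the group generated by the affine and the elementary maps -/
def Tame : Subgroup (Equiv.Perm (k × k)) := Subgroup.closure {f | AffF f ∨ ElF f}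

theorem aff_le : Aff k ≤ Tame k := fun _ hf => Subgroup.subset_closure (Or.inl hf)

theorem exists_diag {α δ : k} (ε : k) (hα : α ≠ 0) (hδ : δ ≠ 0) :
    ∃ f : Equiv.Perm (k × k), ∀ x y, f (x, y) = (α * x, δ * y + ε) := by
  refine ⟨⟨fun v => (α * v.1, δ * v.2 + ε), fun v => (α⁻¹ * v.1, δ⁻¹ * (v.2 - ε)), ?_, ?_⟩,
    fun x y => rfl⟩
  · rintro ⟨x, y⟩
    ext
    · simp [hα]
    · simp [hδ]
  · rintro ⟨x, y⟩
    ext
    · simp [hα]
    · simp [hδ]

theorem exists_el (p : k[X]) : ∃ f : Equiv.Perm (k × k), ∀ x y, f (x, y) = (x + p.eval y, y) := by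
  refine ⟨⟨fun v => (v.1 + p.eval v.2, v.2), fun v => (v.1 - p.eval v.2, v.2), ?_, ?_⟩,
    fun x y => rfl⟩
  · rintro ⟨x, y⟩
    ext <;> simp
  · rintro ⟨x, y⟩
    ext <;> simp

theorem jon_le : Jon k ≤ Tame k := by
  rintro f ⟨α, δ, ε, p, hα, hδ, hf⟩
  obtain ⟨g, hg⟩ := exists_diag ε hα hδ
  obtain ⟨h, hh⟩ := exists_el (C α⁻¹ * p)
  have h1 : f = g * h := by
    apply Equiv.ext
    rintro ⟨x, y⟩
    rw [Equiv.Perm.mul_apply, hh, hg, hf, eval_mul, eval_C]
    ext
    · simp only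
      field_simp
    · rfl
  rw [h1]
  refine mul_mem (Subgroup.subset_closure (Or.inl ⟨α, 0, 0, δ, 0, ε, by simpa using ⟨hα, hδ⟩,
    fun x y => ?_⟩)) (Subgroup.subset_closure (Or.inr ⟨_, hh⟩))
  rw [hg]
  simp

theorem tame_eq : Tame k = Hg k ⊔ Jon k := by
  apply le_antisymm
  · rw [Tame, Subgroup.closure_le]
    rintro f (hf | ⟨p, hf⟩)
    · exact Subgroup.mem_sup_left (Subgroup.mem_sup_left (show f ∈ Aff k from hf))
    · refine Subgroup.mem_sup_right ⟨1, 1, 0, p, one_ne_zero, one_ne_zero, fun x y => ?_⟩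
      rw [hf]
      simp
  · rw [sup_le_iff, Hg, sup_le_iff]
    exact ⟨⟨aff_le, Dj_le_Jon.trans jon_le⟩, jon_le⟩

/-- the linear map given by a matrix -/
def linP (k : Type) [Field k] : GL (Fin 2) k →* Equiv.Perm (k × k) where
  toFun M :=
    { toFun := fun v => (M 0 0 * v.1 + M 0 1 * v.2, M 1 0 * v.1 + M 1 1 * v.2)
      invFun := fun v => (M⁻¹ 0 0 * v.1 + M⁻¹ 0 1 * v.2, M⁻¹ 1 0 * v.1 + M⁻¹ 1 1 * v.2)
      left_inv := by
        intro v
        have h1 : (M⁻¹ * M : GL (Fin 2) k) = 1 := inv_mul_cancel M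
        have h2 : ∀ i j, M⁻¹ i 0 * M 0 j + M⁻¹ i 1 * M 1 j = (1 : Matrix (Fin 2) (Fin 2) k) i j := by
          intro i j
          have h3 := congrArg (fun N : GL (Fin 2) k => (N : Matrix (Fin 2) (Fin 2) k) i j) h1
          simp only [Units.val_mul, Matrix.mul_apply, Fin.sum_univ_two, Units.val_one] at h3
          exact h3
        have e1 := h2 0 0
        have e2 := h2 0 1
        have e3 := h2 1 0
        have e4 := h2 1 1
        rw [Matrix.one_apply_eq] at e1 e4
        rw [Matrix.one_apply_ne (by decide)] at e2 e3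
        ext
        · show M⁻¹ 0 0 * (M 0 0 * v.1 + M 0 1 * v.2) + M⁻¹ 0 1 * (M 1 0 * v.1 + M 1 1 * v.2) = v.1
          linear_combination v.1 * e1 + v.2 * e2
        · show M⁻¹ 1 0 * (M 0 0 * v.1 + M 0 1 * v.2) + M⁻¹ 1 1 * (M 1 0 * v.1 + M 1 1 * v.2) = v.2
          linear_combination v.1 * e3 + v.2 * e4
      right_inv := by
        intro v
        have h1 : (M * M⁻¹ : GL (Fin 2) k) = 1 := mul_inv_cancel M
        have h2 : ∀ i j, M i 0 * M⁻¹ 0 j + M i 1 * M⁻¹ 1 j = (1 : Matrix (Fin 2) (Fin 2) k) i j := by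
          intro i j
          have h3 := congrArg (fun N : GL (Fin 2) k => (N : Matrix (Fin 2) (Fin 2) k) i j) h1
          simp only [Units.val_mul, Matrix.mul_apply, Fin.sum_univ_two, Units.val_one] at h3
          exact h3
        have e1 := h2 0 0
        have e2 := h2 0 1
        have e3 := h2 1 0
        have e4 := h2 1 1
        rw [Matrix.one_apply_eq] at e1 e4
        rw [Matrix.one_apply_ne (by decide)] at e2 e3
        ext
        · show M 0 0 * (M⁻¹ 0 0 * v.1 + M⁻¹ 0 1 * v.2) + M 0 1 * (M⁻¹ 1 0 * v.1 + M⁻¹ 1 1 * v.2) = v.1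
          linear_combination v.1 * e1 + v.2 * e2
        · show M 1 0 * (M⁻¹ 0 0 * v.1 + M⁻¹ 0 1 * v.2) + M 1 1 * (M⁻¹ 1 0 * v.1 + M⁻¹ 1 1 * v.2) = v.2
          linear_combination v.1 * e3 + v.2 * e4 }
  map_one' := by
    apply Equiv.ext
    rintro ⟨x, y⟩
    simp
  map_mul' M N := by
    apply Equiv.ext
    rintro ⟨x, y⟩
    simp [Matrix.mul_apply, Fin.sum_univ_two]
    constructor <;> ring

theorem linP_apply (M : GL (Fin 2) k) (x y : k) :
    linP k M (x, y) = (M 0 0 * x + M 0 1 * y, M 1 0 * x + M 1 1 * y) := rfl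

theorem linP_injective : Injective (linP k) := by
  intro M N h
  have h1 := DFunLike.congr_fun h (1, 0)
  have h2 := DFunLike.congr_fun h (0, 1)
  rw [linP_apply, linP_apply] at h1 h2
  simp at h1 h2
  apply Units.ext
  ext i j
  fin_cases i <;> fin_cases j
  · exact h1.1
  · exact h2.1
  · exact h1.2
  · exact h2.2

theorem linP_mem (M : GL (Fin 2) k) : linP k M ∈ Tame k := by
  apply aff_le
  refine ⟨M 0 0, M 0 1, M 1 0, M 1 1, 0, 0, ?_, fun x y => by rw [linP_apply]; simp⟩
  have h1 := M.det.ne_zero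
  rw [Matrix.GeneralLinearGroup.val_det_apply, Matrix.det_fin_two] at h1
  exact h1

/-- **main theorem** -/
theorem main [Infinite k] (hC : ClosedA C)
    (hsol : ∀ (G : Type) [Group G], Group.IsSolvable G → C G) :
    C (Tame k) ↔ C (GL (Fin 2) k) := by
  constructor
  · intro h
    refine hC.base.base.of_injective _ _ ((linP k).codRestrict _ linP_mem) ?_ h
    intro M N hMN
    exact linP_injective (congrArg Subtype.val hMN)
  · intro h
    have hH := Hg_mem hC hsol h
    by_cases hr : ∃ r : k[X], ¬ Ac r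
    · obtain ⟨r, hr⟩ := hr
      have h1 := mem_sup hC hsol (Γ₂ k) (inj₂ hr) (by
        intro b
        cases b
        · exact hH
        · exact hsol _ jon_solvable) finChains
      have h2 : Tame k = ⨆ i, Γ₂ k i := by rw [tame_eq, sup₂]
      rw [h2]
      exact h1
    · push Not at hr
      have h1 : Tame k = Hg k := by
        rw [tame_eq, sup_eq_left]
        rintro f ⟨α, δ, ε, p, hα, hδ, hf⟩
        exact Dj_le_Hg ⟨α, δ, ε, p, hα, hδ, hr p, hf⟩
      rw [h1]
      exact hH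

end Q30.PA
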