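import Pool.Agent.Q30.PA.Chain

/-!
# Amalgamated products with finite stabilizers of long paths: membership in `C`
-/

set_option autoImplicit false

namespace Q30.PA

open SimpleGraph Monoid
open Pool.Agent.Y110.FJ (Amg ClosedE)
open Q27.FJT
open Q182.Cyl (ClosedA)
open Function (Injective)

section amalg

variable {E : Type} [Group E] {G : Bool → Type} [∀ b, Group (G b)] (φ : ∀ b, E →* G b)

/-- see `Q182.Tow.push_amg`, repeated here to keep the imports small -/
theorem push_amg :
    Amg (PushoutI.of (φ := φ) false).range (PushoutI.of (φ := φ) true).range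
      (PushoutI.base φ).range where
  le_left := by
    rintro _ ⟨x, rfl⟩
    exact ⟨φ false x, PushoutI.of_apply_eq_base φ false x⟩
  le_right := by
    rintro _ ⟨x, rfl⟩
    exact ⟨φ true x, PushoutI.of_apply_eq_base φ true x⟩
  gen := by
    rw [eq_top_iff]
    intro x _
    induction x using PushoutI.induction_on with
    | of i g =>
      cases i
      · exact Subgroup.mem_sup_left ⟨g, rfl⟩
      · exact Subgroup.mem_sup_right ⟨g, rfl⟩
    | base h =>
      rw [← PushoutI.of_apply_eq_base φ false h]
      exact Subgroup.mem_sup_left ⟨_, rfl⟩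
    | mul x y hx hy => exact mul_mem (hx trivial) (hy trivial)
  univ := by
    intro H _ f g hfg
    let F : ∀ b : Bool, G b →* H := fun b =>
      match b with
      | false => f.comp (PushoutI.of (φ := φ) false).rangeRestrict
      | true => g.comp (PushoutI.of (φ := φ) true).rangeRestrict
    have hF : ∀ b, (F b).comp (φ b) = (F false).comp (φ false) := by
      intro b
      cases b
      · rfl
      · ext x
        have h2 := hfg (PushoutI.base φ x) ⟨x, rfl⟩
        show g _ = f _
        have h3 : ((PushoutI.of (φ := φ) false).rangeRestrict (φ false x)) =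
            (⟨PushoutI.base φ x, ⟨φ false x, PushoutI.of_apply_eq_base φ false x⟩⟩ :
              (PushoutI.of (φ := φ) false).range) :=
          Subtype.ext (PushoutI.of_apply_eq_base φ false x)
        have h4 : ((PushoutI.of (φ := φ) true).rangeRestrict (φ true x)) =
            (⟨PushoutI.base φ x, ⟨φ true x, PushoutI.of_apply_eq_base φ true x⟩⟩ :
              (PushoutI.of (φ := φ) true).range) :=
          Subtype.ext (PushoutI.of_apply_eq_base φ true x)
        rw [h3, h4]
        exact h2.symm
    refine ⟨PushoutI.lift F ((F false).comp (φ false)) hF, ?_, ?_⟩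
    · rintro ⟨_, x, rfl⟩
      show PushoutI.lift F _ hF (PushoutI.of false x) = _
      rw [PushoutI.lift_of]
      rfl
    · rintro ⟨_, x, rfl⟩
      show PushoutI.lift F _ hF (PushoutI.of true x) = _
      rw [PushoutI.lift_of]
      rfl

end amalg

variable {C : ∀ (G : Type) [Group G], Prop}

theorem vc_mem (hC : ClosedA C) (hsol : ∀ (G : Type) [Group G], Group.IsSolvable G → C G)
    {G : Type} [Group G] (W : Subgroup G) (h : ∃ c ∈ W, (Subgroup.zpowers c).relIndex W ≠ 0) :
    C W := by
  obtain ⟨c, -, hi⟩ := h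
  refine hC.base.base.finiteIndex W ((Subgroup.zpowers c).subgroupOf W) ⟨hi⟩ (hsol _ ?_)
  apply Group.isSolvable_of_comm
  rintro ⟨⟨x, hx'⟩, hx⟩ ⟨⟨y, hy'⟩, hy⟩
  rw [Subgroup.mem_subgroupOf] at hx hy
  apply Subtype.ext
  apply Subtype.ext
  obtain ⟨k, hk⟩ := Subgroup.mem_zpowers_iff.1 hx
  obtain ⟨l, hl⟩ := Subgroup.mem_zpowers_iff.1 hy
  change c ^ k = x at hk
  change c ^ l = y at hl
  change x * y = y * x
  rw [← hk, ← hl, ← zpow_add, ← zpow_add, add_comm]

/-- a subgroup contained in a conjugate of the image of a group of `C` -/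
theorem conj_mem' (hC : ClosedE C) {P M : Type} [Group P] [Group M] (f : M →* P) (hf : Injective f)
    (hM : C M) (g : P) (S : Subgroup P) (hS : ∀ s ∈ S, g⁻¹ * s * g ∈ f.range) : C S := by
  let e : S →* f.range :=
    { toFun := fun s => ⟨g⁻¹ * s * g, hS s s.2⟩
      map_one' := by
        apply Subtype.ext
        show g⁻¹ * (1 : P) * g = 1
        group
      map_mul' := fun a b => by
        apply Subtype.ext
        show g⁻¹ * ((a : P) * b) * g = g⁻¹ * a * g * (g⁻¹ * b * g)
        group }
  have he : Injective e := by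
    intro a b hab
    have h1 : g⁻¹ * (a : P) * g = g⁻¹ * b * g := congrArg Subtype.val hab
    apply Subtype.ext
    simpa using h1
  have h2 : C f.range := hC.base.of_injective _ _
    (MonoidHom.ofInjective hf).symm.toMonoidHom (MonoidHom.ofInjective hf).symm.injective hM
  exact hC.base.of_injective _ _ e he h2

theorem conj_mem (hC : ClosedA C) {P M : Type} [Group P] [Group M] (f : M →* P) (hf : Injective f)
    (hM : C M) (g : P) (S : Subgroup P) (hS : ∀ s ∈ S, g⁻¹ * s * g ∈ f.range) : C S :=
  conj_mem' hC.base f hf hM g S hS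

theorem mem_sup (hC : ClosedA C) (hsol : ∀ (G : Type) [Group G], Group.IsSolvable G → C G)
    {G : Type} [Group G] (Γ : Bool → Subgroup G) (hinj : Injective (amalgMap Γ))
    (hΓ : ∀ b, C (Γ b)) (hfin : FinChains (Γ false) (Γ true)) : C ↥(⨆ i, Γ i) := by
  have hAm := push_amg (incl Γ)
  have hof : ∀ (b : Bool) (p : PushoutI (incl Γ)),
      p ∈ (PushoutI.of (φ := incl Γ) b).range ↔ amalgMap Γ p ∈ Γ b := by
    intro b p
    constructor
    · rintro ⟨x, rfl⟩
      rw [amalgMap_of]
      exact x.2
    · intro h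
      refine ⟨⟨_, h⟩, hinj ?_⟩
      rw [amalgMap_of]
  have hOk : ∀ f w : PushoutI (incl Γ), Ok (PushoutI.of (φ := incl Γ) false).range
      (PushoutI.of (φ := incl Γ) true).range f w ↔
      Ok (Γ false) (Γ true) (amalgMap Γ f) (amalgMap Γ w) := by
    intro f w
    unfold Ok
    rw [hof, hof, map_mul, map_mul, map_inv]
  have hfin' : FinChains (PushoutI.of (φ := incl Γ) false).range
      (PushoutI.of (φ := incl Γ) true).range := by
    intro b₁ a₁ b₂ a₂ b₃ a₃ h1 h2 h3 h4 h5 h6
    simp only [hof] at h1 h2 h3 h4 h5 h6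
    have key := hfin _ _ _ _ _ _ h1 h2 h3 h4 h5 h6
    refine (key.preimage hinj.injOn).subset ?_
    intro f hf
    obtain ⟨k0, k1, k2, k3, k4, k5, k6⟩ := hf
    rw [hOk] at k0 k1 k2 k3 k4 k5 k6
    simp only [map_mul, map_one] at k0 k1 k2 k3 k4 k5 k6
    exact ⟨k0, k1, k2, k3, k4, k5, k6⟩
  have hofinj : ∀ b, Injective (PushoutI.of (φ := incl Γ) b) := fun b x y hxy => by
    have := congrArg (amalgMap Γ) hxy
    rw [amalgMap_of, amalgMap_of] at this
    exact Subtype.ext this
  have hP : C (PushoutI (incl Γ)) := by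
    refine hC.acyl _ _ _ (MonoidHom.id _) (atree _ _) 8 (fun g => ⟨g, rfl⟩) (isTree hAm)
      (fun f v w h => atree_adj f h) (fun f v w h => noInv f v w h)
      (finite_stab hAm hfin') ?_ ?_
    · intro v
      rcases vertex_cases v with ⟨g, rfl⟩ | ⟨g, rfl⟩
      · exact conj_mem hC _ (hofinj false) (hΓ false) g _ fun s hs => fix_vA.1 hs
      · exact conj_mem hC _ (hofinj true) (hΓ true) g _ fun s hs => fix_vB.1 hs
    · intro W hW
      exact vc_mem hC hsol W hW
  have hr : (⨆ i, Γ i) ≤ (amalgMap Γ).range := range_amalgMap Γ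
  refine hC.base.base.of_injective _ _ ((MonoidHom.ofInjective hinj).symm.toMonoidHom.comp
    (Subgroup.inclusion hr)) ?_ hP
  exact (MonoidHom.ofInjective hinj).symm.injective.comp (Subgroup.inclusion_injective hr)

end Q30.PA
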