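import Mathlib

/-!
# Additive polynomials over infinite fields
-/

set_option autoImplicit false

namespace Q30.PA

open Polynomial

variable {k : Type} [Field k]

/-- additive polynomials -/
def IsAd (q : k[X]) : Prop := ∀ y z : k, q.eval (y + z) = q.eval y + q.eval z

/-- additive polynomials up to constants -/
def Ac (p : k[X]) : Prop := ∃ (q : k[X]) (c : k), IsAd q ∧ p = q + C c

theorem IsAd.zero : IsAd (0 : k[X]) := fun y z => by simp

theorem IsAd.idX : IsAd (X : k[X]) := fun y z => by simp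

theorem IsAd.add {p q : k[X]} (hp : IsAd p) (hq : IsAd q) : IsAd (p + q) := fun y z => by
  rw [eval_add, eval_add, eval_add, hp, hq]
  ring

theorem IsAd.smul {p : k[X]} (a : k) (hp : IsAd p) : IsAd (C a * p) := fun y z => by
  rw [eval_mul, eval_mul, eval_mul, hp, eval_C, eval_C, eval_C, mul_add]

theorem IsAd.neg {p : k[X]} (hp : IsAd p) : IsAd (-p) := by
  have := hp.smul (-1)
  simpa using this

theorem IsAd.sub {p q : k[X]} (hp : IsAd p) (hq : IsAd q) : IsAd (p - q) := by
  rw [sub_eq_add_neg]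
  exact hp.add hq.neg

theorem IsAd.comp {p q : k[X]} (hp : IsAd p) (hq : IsAd q) : IsAd (p.comp q) := fun y z => by
  rw [eval_comp, eval_comp, eval_comp, hq, hp]

theorem IsAd.at_zero {p : k[X]} (hp : IsAd p) : p.eval 0 = 0 := by
  have := hp 0 0
  rw [add_zero] at this
  simpa using this

theorem IsAd.at_neg {p : k[X]} (hp : IsAd p) (x : k) : p.eval (-x) = -p.eval x := by
  have := hp x (-x)
  rw [add_neg_cancel, hp.at_zero] at this
  exact (neg_eq_of_add_eq_zero_right this.symm).symm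

theorem IsAd.at_sub {p : k[X]} (hp : IsAd p) (x y : k) : p.eval (x - y) = p.eval x - p.eval y := by
  rw [sub_eq_add_neg, hp, hp.at_neg, ← sub_eq_add_neg]

theorem IsAd.mulX (a : k) : IsAd (C a * X : k[X]) := IsAd.idX.smul a

theorem Ac.of_ad {p : k[X]} (hp : IsAd p) : Ac p := ⟨p, 0, hp, by simp⟩

theorem Ac.const (c : k) : Ac (C c : k[X]) := ⟨0, c, IsAd.zero, by simp⟩

theorem Ac.add {p q : k[X]} (hp : Ac p) (hq : Ac q) : Ac (p + q) := by
  obtain ⟨p', c, hp', rfl⟩ := hp
  obtain ⟨q', d, hq', rfl⟩ := hq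
  exact ⟨p' + q', c + d, hp'.add hq', by rw [C_add]; ring⟩

theorem Ac.smul {p : k[X]} (a : k) (hp : Ac p) : Ac (C a * p) := by
  obtain ⟨p', c, hp', rfl⟩ := hp
  exact ⟨C a * p', a * c, hp'.smul a, by rw [C_mul]; ring⟩

theorem Ac.neg {p : k[X]} (hp : Ac p) : Ac (-p) := by
  have := hp.smul (-1)
  simpa using this

theorem Ac.sub {p q : k[X]} (hp : Ac p) (hq : Ac q) : Ac (p - q) := by
  rw [sub_eq_add_neg]
  exact hp.add hq.neg

theorem Ac.comp_lin {p : k[X]} (hp : Ac p) (a b : k) : Ac (p.comp (C a * X + C b)) := by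
  obtain ⟨q, c, hq, rfl⟩ := hp
  refine ⟨q.comp (C a * X + C b) - C (q.eval b), q.eval b + c, ?_, ?_⟩
  · intro y z
    simp only [eval_sub, eval_comp, eval_add, eval_mul, eval_C, eval_X]
    rw [mul_add, show a * y + a * z + b = (a * y) + (a * z + b) from by ring, hq, hq (a * z) b,
      hq (a * y) b]
    ring
  · rw [add_comp, C_comp, C_add]
    ring

theorem ac_of_natDegree {p : k[X]} (h : p.natDegree ≤ 1) : Ac p := by
  obtain ⟨a, b, rfl⟩ := exists_eq_X_add_C_of_natDegree_le_one h
  exact ⟨C a * X, b, IsAd.mulX a, rfl⟩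

theorem natDegree_of_not_ac {p : k[X]} (h : ¬ Ac p) : 2 ≤ p.natDegree := by
  by_contra h1
  exact h (ac_of_natDegree (by omega))

theorem finite_preimage {c : k[X]} (hc : 0 < c.natDegree) {S : Set k} (hS : S.Finite) :
    {x | c.eval x ∈ S}.Finite := by
  have h1 : {x | c.eval x ∈ S} = ⋃ v ∈ S, {x | c.eval x = v} := by
    ext x
    simp
  rw [h1]
  refine hS.biUnion fun v _ => ?_
  have h2 : c - C v ≠ 0 := by
    intro h3
    rw [sub_eq_zero] at h3
    rw [h3, natDegree_C] at hc
    exact lt_irrefl _ hc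
  refine (c - C v).rootSet_finite k |>.subset ?_
  intro x hx
  rw [mem_rootSet]
  refine ⟨h2, ?_⟩
  have hx' : c.eval x = v := hx
  simp [hx']

section inf

variable [Infinite k]

theorem pos_of_ne {q : k[X]} (hq : IsAd q) (h : q ≠ 0) : 0 < q.natDegree := by
  by_contra h1
  have h2 : q.natDegree = 0 := by omega
  rw [natDegree_eq_zero] at h2
  obtain ⟨c, rfl⟩ := h2
  have h3 := hq.at_zero
  rw [eval_C] at h3
  exact h (by rw [h3, C_0])

/-- `q ∘ c = 0` -/
theorem eq_zero_of_comp {q c : k[X]} (hc : 0 < c.natDegree) (h : ∀ x, q.eval (c.eval x) = 0) :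
    q = 0 := by
  have h1 : q.comp c = 0 := by
    apply Polynomial.funext
    intro x
    rw [eval_comp, h, eval_zero]
  rw [comp_eq_zero_iff] at h1
  rcases h1 with h1 | ⟨-, h1⟩
  · exact h1
  · rw [h1, natDegree_C] at hc
    exact absurd hc (lt_irrefl _)

/-- the exponent of a polynomial that is not additive -/
theorem exists_exp {p : k[X]} (hp : ¬ Ac p) : ∃ m : ℕ, 2 ≤ m ∧ ∀ α δ ε : k, δ ≠ 0 →
    Ac (C α * p - p.comp (C δ * X + C ε)) → α = δ ^ m := by
  classical
  have hex : ∃ n : ℕ, ∃ r : k[X], Ac r ∧ (p - r).natDegree = n := ⟨_, 0, Ac.of_ad IsAd.zero, rfl⟩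
  obtain ⟨r, hr, hm⟩ := Nat.find_spec hex
  have hmin : ∀ s : k[X], Ac s → Nat.find hex ≤ (p - s).natDegree := fun s hs =>
    Nat.find_min' hex ⟨s, hs, rfl⟩
  set m := Nat.find hex with hmdef
  obtain ⟨t, ht⟩ : ∃ t, t = p - r := ⟨_, rfl⟩
  rw [← ht] at hm
  have hta : ¬ Ac t := by
    intro h1
    apply hp
    have : p = t + r := by rw [ht]; ring
    rw [this]
    exact h1.add hr
  have hm2 : 2 ≤ m := by
    rw [← hm]
    exact natDegree_of_not_ac hta
  refine ⟨m, hm2, fun α δ ε hδ hA => ?_⟩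
  by_contra hne
  obtain ⟨D, hD⟩ : ∃ D, D = C α * t - t.comp (C δ * X + C ε) := ⟨_, rfl⟩
  have hDA : Ac D := by
    have h1 : D = (C α * p - p.comp (C δ * X + C ε)) - (C α * r - r.comp (C δ * X + C ε)) := by
      rw [hD, ht, sub_comp]
      ring
    rw [h1]
    exact hA.sub ((hr.smul α).sub (hr.comp_lin δ ε))
  have hl : (C δ * X + C ε : k[X]).natDegree = 1 := natDegree_linear hδ
  have hn : (t.comp (C δ * X + C ε)).natDegree = m := by
    rw [natDegree_comp, hl, hm, mul_one]
  have hlc : (t.comp (C δ * X + C ε)).coeff m = t.leadingCoeff * δ ^ m := by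
    rw [← hn, coeff_natDegree, leadingCoeff_comp (by rw [hl]; exact one_ne_zero),
      leadingCoeff_linear hδ, hm, hn]
  have hDc : D.coeff m = t.leadingCoeff * (α - δ ^ m) := by
    rw [hD, coeff_sub, coeff_C_mul, hlc, ← hm, coeff_natDegree]
    ring
  have htl : t.leadingCoeff ≠ 0 := by
    rw [Ne, leadingCoeff_eq_zero]
    intro h1
    rw [h1, natDegree_zero] at hm
    omega
  have hDc0 : D.coeff m ≠ 0 := by
    rw [hDc]
    exact mul_ne_zero htl (sub_ne_zero.2 hne)
  have hDn : D.natDegree ≤ m := by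
    rw [hD]
    refine (natDegree_sub_le _ _).trans (max_le ?_ hn.le)
    exact (natDegree_C_mul_le _ _).trans hm.le
  have h1 := hmin (r + C (t.leadingCoeff / D.coeff m) * D) (hr.add (hDA.smul _))
  have h2 : p - (r + C (t.leadingCoeff / D.coeff m) * D) =
      t - C (t.leadingCoeff / D.coeff m) * D := by
    rw [ht]
    ring
  rw [h2] at h1
  have h3 : (t - C (t.leadingCoeff / D.coeff m) * D).coeff m = 0 := by
    rw [coeff_sub, coeff_C_mul, div_mul_cancel₀ _ hDc0, ← hm, coeff_natDegree, sub_self]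
  have h4 : (t - C (t.leadingCoeff / D.coeff m) * D).natDegree ≤ m := by
    refine (natDegree_sub_le _ _).trans (max_le hm.le ?_)
    exact (natDegree_C_mul_le _ _).trans hDn
  have h5 : (t - C (t.leadingCoeff / D.coeff m) * D).natDegree = m := le_antisymm h4 h1
  have h6 : (t - C (t.leadingCoeff / D.coeff m) * D).leadingCoeff = 0 := by
    rw [← coeff_natDegree, h5, h3]
  rw [leadingCoeff_eq_zero] at h6
  rw [h6, natDegree_zero] at h5
  omega

/-- a polynomial that is not additive has finitely many periods up to constants -/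
theorem finite_periods {p : k[X]} (hp : ¬ Ac p) :
    {ε : k | ∃ c, ∀ y, p.eval (y + ε) = p.eval y + c}.Finite := by
  by_contra hinf
  have hinf' : {ε : k | ∃ c, ∀ y, p.eval (y + ε) = p.eval y + c}.Infinite := hinf
  apply hp
  have key : ∀ y ε : k, p.eval (y + ε) = p.eval ε + p.eval y - p.eval 0 := by
    intro y
    have h1 : p.comp (X + C y) - p - C (p.eval y - p.eval 0) = 0 := by
      refine Polynomial.eq_zero_of_infinite_isRoot _ (hinf'.mono ?_)
      rintro ε ⟨c, hc⟩
      have h2 := hc 0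
      rw [zero_add] at h2
      have h3 := hc y
      show eval ε _ = 0
      rw [eval_sub, eval_sub, eval_comp, eval_add, eval_X, eval_C, eval_C, add_comm ε y, h3, h2]
      ring
    intro ε
    have h2 := congrArg (eval ε) h1
    rw [eval_sub, eval_sub, eval_comp, eval_add, eval_X, eval_C, eval_C, eval_zero,
      add_comm ε y] at h2
    linear_combination h2
  refine ⟨p - C (p.eval 0), p.eval 0, ?_, by ring⟩
  intro y z
  simp only [eval_sub, eval_C]
  rw [key]
  ring

end inf

end Q30.PA
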