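import Pool.Agent.Q30.PA.Pp2
import Pool.Agent.Q30.PA.Mem
import Pool.Agent.Q9.FJT.TreeA

/-!
# The group generated by the linear and the additive de Jonquières maps fixing the origin
-/

set_option autoImplicit false

namespace Q30.PA

open Polynomial Monoid
open Pool.Agent.Y110.FJ (Amg ClosedE)
open Q27.FJT
open Function (Injective)

variable {C : ∀ (G : Type) [Group G], Prop}

/-- amalgamated products with a homomorphism that is injective on the amalgamated subgroup -/
theorem mem_sup_edge (hC : ClosedE C) {G Q : Type} [Group G] [Group Q] (Γ : Bool → Subgroup G)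
    (hinj : Injective (amalgMap Γ)) (hΓ : ∀ b, C (Γ b)) (hQ : C Q) (ρ : ↥(⨆ i, Γ i) →* Q)
    (hρ : ∀ f : ↥(⨆ i, Γ i), (f : G) ∈ Γ false → (f : G) ∈ Γ true → ρ f = 1 → f = 1) :
    C ↥(⨆ i, Γ i) := by
  have hAm := push_amg (incl Γ)
  have hle : ∀ p : PushoutI (incl Γ), amalgMap Γ p ∈ ⨆ i, Γ i := by
    intro p
    induction p using PushoutI.induction_on with
    | of i g =>
      rw [amalgMap_of]
      exact (le_iSup Γ i) g.2
    | base h =>
      rw [amalgMap_base]
      exact (iInf_le Γ false).trans (le_iSup Γ false) h.2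
    | mul x y hx hy =>
      rw [map_mul]
      exact mul_mem hx hy
  let ι : PushoutI (incl Γ) →* ↥(⨆ i, Γ i) := (amalgMap Γ).codRestrict _ hle
  have hof : ∀ (b : Bool) (p : PushoutI (incl Γ)),
      p ∈ (PushoutI.of (φ := incl Γ) b).range → amalgMap Γ p ∈ Γ b := by
    rintro b _ ⟨x, rfl⟩
    rw [amalgMap_of]
    exact x.2
  have hofinj : ∀ b, Injective (PushoutI.of (φ := incl Γ) b) := fun b x y hxy => by
    have := congrArg (amalgMap Γ) hxy
    rw [amalgMap_of, amalgMap_of] at this
    exact Subtype.ext this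
  have hvert : ∀ v : VV (PushoutI.of (φ := incl Γ) false).range
      (PushoutI.of (φ := incl Γ) true).range, C (MulAction.stabilizer (PushoutI (incl Γ)) v) := by
    intro v
    rcases vertex_cases v with ⟨g, rfl⟩ | ⟨g, rfl⟩
    · exact conj_mem' hC _ (hofinj false) (hΓ false) g _ fun s hs => fix_vA.1 hs
    · exact conj_mem' hC _ (hofinj true) (hΓ true) g _ fun s hs => fix_vB.1 hs
  have hP : C (PushoutI (incl Γ)) := by
    refine Q9.FJT.tree_edge (ρ.comp ι) hC hQ (isTree hAm) (fun f v w h => atree_adj f h)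
      (fun f v w h => noInv f v w h) ?_ hvert
    intro g v w hvw hv hw hg
    obtain ⟨x, hx⟩ := hvw
    have key : g • vA (PushoutI.of (φ := incl Γ) false).range
        (PushoutI.of (φ := incl Γ) true).range x = vA _ _ x → g • vB (PushoutI.of (φ := incl Γ)
        false).range (PushoutI.of (φ := incl Γ) true).range x = vB _ _ x → g = 1 := by
      intro h1 h2
      rw [fix_vA] at h1
      rw [fix_vB] at h2
      have h3 : ι (x⁻¹ * g * x) = 1 := by
        apply hρ _ (hof _ _ h1) (hof _ _ h2)
        have h4 : ρ (ι g) = 1 := hg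
        rw [map_mul, map_mul, map_mul, map_mul, h4, mul_one, map_inv, map_inv, inv_mul_cancel]
      have h4 : amalgMap Γ (x⁻¹ * g * x) = 1 := congrArg Subtype.val h3
      have h5 : x⁻¹ * g * x = 1 := hinj (by rw [h4, map_one])
      have h6 : g = x * (x⁻¹ * g * x) * x⁻¹ := by group
      rw [h6, h5]
      group
    rcases hx with ⟨rfl, rfl⟩ | ⟨rfl, rfl⟩
    · exact key hv hw
    · exact key hw hv
  have hr : (⨆ i, Γ i) ≤ (amalgMap Γ).range := range_amalgMap Γ
  refine hC.base.of_injective _ _ ((MonoidHom.ofInjective hinj).symm.toMonoidHom.comp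
    (Subgroup.inclusion hr)) ?_ hP
  exact (MonoidHom.ofInjective hinj).symm.injective.comp (Subgroup.inclusion_injective hr)

end Q30.PA
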