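import Pool.Agent.Q30.PA.Grp
import Pool.Agent.Q30.PA.Ping

/-!
# The first ping-pong
-/

set_option autoImplicit false

namespace Q30.PA

open Polynomial

variable {k : Type} [Field k]

/-- `f` maps the curve `(u, v)` to the curve `(u', v')` -/
def Mv (f : Equiv.Perm (k × k)) (u v u' v' : k[X]) : Prop :=
  ∀ t, f (u.eval t, v.eval t) = (u'.eval t, v'.eval t)

theorem Mv.comp {f g : Equiv.Perm (k × k)} {u v u' v' u'' v'' : k[X]} (h : Mv f u v u' v')
    (h' : Mv g u' v' u'' v'') : Mv (g * f) u v u'' v'' := fun t => by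
  rw [Equiv.Perm.mul_apply, h, h']

def PP (u v : k[X]) : Prop :=
  1 ≤ v.natDegree ∧ ∀ q, IsAd q → v.natDegree < (u + q.comp v).natDegree

def SH (u v : k[X]) : Prop := ∃ q, IsAd q ∧ (u + q.comp v).natDegree ≤ v.natDegree

theorem PP.lt {u v : k[X]} (h : PP u v) : v.natDegree < u.natDegree := by
  have := h.2 0 IsAd.zero
  simpa using this

theorem SH.of_le {u v : k[X]} (h : u.natDegree ≤ v.natDegree) : SH u v :=
  ⟨0, IsAd.zero, by simpa using h⟩

theorem mv_jon {f : Equiv.Perm (k × k)} {α δ ε : k} {p : k[X]}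
    (hf : ∀ x y, f (x, y) = (α * x + p.eval y, δ * y + ε)) (u v : k[X]) :
    Mv f u v (C α * u + p.comp v) (C δ * v + C ε) := fun t => by
  rw [hf]
  simp

theorem mv_aff {f : Equiv.Perm (k × k)} {a b c d e g : k}
    (hf : ∀ x y, f (x, y) = (a * x + b * y + e, c * x + d * y + g)) (u v : k[X]) :
    Mv f u v (C a * u + C b * v + C e) (C c * u + C d * v + C g) := fun t => by
  rw [hf]
  simp

theorem nd_lin {δ : k} (hδ : δ ≠ 0) (ε : k) (v : k[X]) : (C δ * v + C ε).natDegree = v.natDegree := by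
  rw [natDegree_add_C, natDegree_C_mul hδ]

theorem nd_lin_le (δ : k) (ε : k) (v : k[X]) : (C δ * v + C ε).natDegree ≤ v.natDegree := by
  rw [natDegree_add_C]
  exact natDegree_C_mul_le _ _

section inf

variable [Infinite k]

theorem comp_lin_eq {q : k[X]} (hq : IsAd q) (v : k[X]) (δ ε : k) :
    q.comp (C δ * v + C ε) = (q.comp (C δ * X)).comp v + C (q.eval ε) := by
  apply Polynomial.funext
  intro x
  simp only [eval_comp, eval_add, eval_mul, eval_C, eval_X]
  rw [hq]

/-- additive de Jonquières maps preserve `PP` -/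
theorem PP.dj {α δ ε : k} {p u v : k[X]} (hα : α ≠ 0) (hδ : δ ≠ 0) (hp : Ac p) (h : PP u v) :
    PP (C α * u + p.comp v) (C δ * v + C ε) := by
  obtain ⟨q0, c, hq0, rfl⟩ := hp
  refine ⟨by rw [nd_lin hδ]; exact h.1, fun q hq => ?_⟩
  rw [nd_lin hδ, comp_lin_eq hq]
  have h1 : C α * u + (q0 + C c).comp v + ((q.comp (C δ * X)).comp v + C (q.eval ε)) =
      C α * (u + (C α⁻¹ * (q0 + q.comp (C δ * X))).comp v) + C (c + q.eval ε) := by
    have h2 : (C α * C α⁻¹ : k[X]) = 1 := by rw [← C_mul, mul_inv_cancel₀ hα, C_1]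
    simp only [add_comp, mul_comp, C_comp, C_add]
    linear_combination (-(q0.comp v) - (q.comp (C δ * X)).comp v) * h2
  rw [h1, nd_lin hα]
  exact h.2 _ ((hq0.add (hq.comp (IsAd.mulX δ))).smul _)

/-- additive de Jonquières maps preserve `SH` -/
theorem SH.dj {α δ ε : k} {p u v : k[X]} (hδ : δ ≠ 0) (hp : Ac p) (h : SH u v) :
    SH (C α * u + p.comp v) (C δ * v + C ε) := by
  obtain ⟨q0, c, hq0, rfl⟩ := hp
  obtain ⟨q, hq, hle⟩ := h
  have hr : IsAd ((C α * q - q0).comp (C δ⁻¹ * X)) :=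
    ((hq.smul α).sub hq0).comp (IsAd.mulX _)
  refine ⟨(C α * q - q0).comp (C δ⁻¹ * X), hr, ?_⟩
  rw [nd_lin hδ, comp_lin_eq hr]
  have h3 : (((C α * q - q0).comp (C δ⁻¹ * X)).comp (C δ * X)) = C α * q - q0 := by
    rw [comp_assoc]
    have : (C δ⁻¹ * X : k[X]).comp (C δ * X) = X := by
      rw [mul_comp, C_comp, X_comp, ← mul_assoc, ← C_mul, inv_mul_cancel₀ hδ, C_1, one_mul]
    rw [this, comp_X]
  rw [h3]
  have h1 : C α * u + (q0 + C c).comp v + ((C α * q - q0).comp v +
      C (eval ε ((C α * q - q0).comp (C δ⁻¹ * X)))) =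
      C α * (u + q.comp v) + C (c + eval ε ((C α * q - q0).comp (C δ⁻¹ * X))) := by
    simp only [add_comp, sub_comp, mul_comp, C_comp, C_add]
    ring
  rw [h1]
  exact (nd_lin_le _ _ _).trans hle

/-- the other de Jonquières maps send `SH` to `PP` -/
theorem SH.jon {α δ ε : k} {p u v : k[X]} (hδ : δ ≠ 0) (hp : ¬ Ac p) (hv : 1 ≤ v.natDegree)
    (h : SH u v) : PP (C α * u + p.comp v) (C δ * v + C ε) := by
  obtain ⟨q0, hq0, hle⟩ := h
  refine ⟨by rw [nd_lin hδ]; exact hv, fun q hq => ?_⟩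
  rw [nd_lin hδ, comp_lin_eq hq]
  obtain ⟨r, hr⟩ : ∃ r, r = p + q.comp (C δ * X) - C α * q0 := ⟨_, rfl⟩
  have h1 : C α * u + p.comp v + ((q.comp (C δ * X)).comp v + C (q.eval ε)) =
      r.comp v + (C α * (u + q0.comp v) + C (q.eval ε)) := by
    rw [hr]
    simp only [add_comp, sub_comp, mul_comp, C_comp]
    ring
  have hrA : ¬ Ac r := by
    intro h2
    apply hp
    have h3 : p = r - (q.comp (C δ * X) - C α * q0) := by rw [hr]; ring
    rw [h3]
    exact h2.sub (Ac.of_ad ((hq.comp (IsAd.mulX δ)).sub (hq0.smul α)))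
  have h2 := natDegree_of_not_ac hrA
  have h3 : (r.comp v).natDegree = r.natDegree * v.natDegree := natDegree_comp
  have h4 : (C α * (u + q0.comp v) + C (q.eval ε)).natDegree ≤ v.natDegree :=
    (nd_lin_le _ _ _).trans hle
  have h5 : v.natDegree < (r.comp v).natDegree := by
    rw [h3]
    nlinarith
  rw [h1, natDegree_add_eq_left_of_natDegree_lt (lt_of_le_of_lt h4 h5)]
  exact h5

theorem aff_step {a b c d e g : k} {u v : k[X]} (hc : c ≠ 0) (h : v.natDegree < u.natDegree) :
    (C c * u + C d * v + C g).natDegree = u.natDegree ∧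
      (C a * u + C b * v + C e).natDegree ≤ u.natDegree := by
  constructor
  · rw [natDegree_add_C, natDegree_add_eq_left_of_natDegree_lt, natDegree_C_mul hc]
    rw [natDegree_C_mul hc]
    exact lt_of_le_of_lt (natDegree_C_mul_le _ _) h
  · rw [natDegree_add_C]
    refine (natDegree_add_le _ _).trans (max_le (natDegree_C_mul_le _ _) ?_)
    exact (natDegree_C_mul_le _ _).trans h.le

theorem aff_dj {f : Equiv.Perm (k × k)} {a b c d e g : k} (hD : a * d - b * c ≠ 0)
    (hf : ∀ x y, f (x, y) = (a * x + b * y + e, c * x + d * y + g)) (hc : c = 0) : f ∈ Dj k := by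
  subst hc
  rw [mul_zero, sub_zero] at hD
  refine ⟨a, d, g, C b * X + C e, left_ne_zero_of_mul hD, right_ne_zero_of_mul hD,
    ac_of_natDegree natDegree_linear_le, fun x y => ?_⟩
  rw [hf]
  simp [add_assoc]

theorem dj_aff {f : Equiv.Perm (k × k)} {α δ ε : k} {p : k[X]} (hα : α ≠ 0) (hδ : δ ≠ 0)
    (hf : ∀ x y, f (x, y) = (α * x + p.eval y, δ * y + ε)) (hp : p.natDegree ≤ 1) : f ∈ Aff k := by
  obtain ⟨b, e, rfl⟩ := exists_eq_X_add_C_of_natDegree_le_one hp
  refine ⟨α, b, 0, δ, e, ε, by simpa using ⟨hα, hδ⟩, fun x y => ?_⟩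
  rw [hf]
  simp [add_assoc]

theorem aff_jon {f : Equiv.Perm (k × k)} {a b c d e g : k}
    (hf : ∀ x y, f (x, y) = (a * x + b * y + e, c * x + d * y + g)) (h : f ∈ Jon k) : c = 0 := by
  obtain ⟨α, δ, ε, p, -, -, hf'⟩ := h
  have h1 : f (1, 0) = f (1, 0) := rfl
  have h2 : (f (1, 0)).2 = (f (0, 0)).2 := by rw [hf', hf']
  rw [hf, hf] at h2
  simpa using h2

/-- the factors of the first ping-pong -/
def Γ₁ (k : Type) [Field k] : Bool → Subgroup (Equiv.Perm (k × k))
  | false => Aff k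
  | true => Dj k

def S₁ (k : Type) [Field k] : Bool → Set (Equiv.Perm (k × k))
  | false => {f | ∀ u v : k[X], PP u v → ∃ u' v', Mv f u v u' v' ∧ v.natDegree < v'.natDegree ∧
      u'.natDegree ≤ v'.natDegree}
  | true => {f | f ∈ Dj k ∨ ∀ u v : k[X], PP u v → ∃ u' v', Mv f u v u' v' ∧
      v.natDegree < v'.natDegree ∧ v'.natDegree < u'.natDegree ∧ SH u' v'}

theorem inf₁ : (⨅ j, Γ₁ k j) = Aff k ⊓ Dj k := by
  rw [iInf_bool_eq, inf_comm]
  rfl

theorem sup₁ : (⨆ j, Γ₁ k j) = Hg k := by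
  rw [iSup_bool_eq, sup_comm]
  rfl

theorem ping₁ (f : Equiv.Perm (k × k)) (hf : f ∈ Hg k) (hD : f ∉ Dj k) (u v : k[X]) (h : PP u v) :
    ∃ u' v', Mv f u v u' v' ∧ v.natDegree < v'.natDegree ∧ SH u' v' := by
  have key := (sup_pingpong (Γ₁ k) (S₁ k) ?_ ?_ ?_).2 f (by rw [sup₁]; exact hf)
  · rcases key with key | ⟨i, key⟩
    · rw [inf₁] at key
      exact absurd key.2 hD
    · cases i
      · obtain ⟨u', v', h1, h2, h3⟩ := key u v h
        exact ⟨u', v', h1, h2, SH.of_le h3⟩
      · rcases key with key | key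
        · exact absurd key hD
        · obtain ⟨u', v', h1, h2, h3, h4⟩ := key u v h
          exact ⟨u', v', h1, h2, h4⟩
  · -- one letter
    intro i g hg hg'
    rw [inf₁] at hg'
    cases i
    · intro u v h
      obtain ⟨a, b, c, d, e, g', hD', hf'⟩ := hg
      have hc : c ≠ 0 := fun hc => hg' ⟨⟨a, b, c, d, e, g', hD', hf'⟩, aff_dj hD' hf' hc⟩
      obtain ⟨h1, h2⟩ := aff_step (a := a) (b := b) (d := d) (e := e) (g := g') hc h.lt
      refine ⟨_, _, mv_aff hf' u v, ?_, ?_⟩
      · rw [h1]; exact h.lt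
      · rw [h1]; exact h2
    · exact Or.inl hg
  · -- product
    intro i j hij g hg hg' x hx
    rw [inf₁] at hg'
    cases i
    · cases j
      · exact absurd rfl hij
      · obtain ⟨a, b, c, d, e, g', hD', hf'⟩ := hg
        have hc : c ≠ 0 := fun hc => hg' ⟨⟨a, b, c, d, e, g', hD', hf'⟩, aff_dj hD' hf' hc⟩
        intro u v h
        rcases hx with hx | hx
        · obtain ⟨α, δ, ε, p, hα, hδ, hp, hx'⟩ := hx
          have h1 := PP.dj (ε := ε) hα hδ hp h
          obtain ⟨h2, h3⟩ := aff_step (a := a) (b := b) (d := d) (e := e) (g := g') hc h1.lt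
          refine ⟨_, _, (mv_jon hx' u v).comp (mv_aff hf' _ _), ?_, ?_⟩
          · rw [h2]
            have := h1.lt
            rwa [nd_lin hδ] at this
          · rw [h2]; exact h3
        · obtain ⟨u', v', h1, h2, h3, h4⟩ := hx u v h
          obtain ⟨h5, h6⟩ := aff_step (a := a) (b := b) (d := d) (e := e) (g := g') hc h3
          refine ⟨_, _, h1.comp (mv_aff hf' _ _), ?_, ?_⟩
          · rw [h5]; exact h2.trans h3
          · rw [h5]; exact h6
    · cases j
      · obtain ⟨α, δ, ε, p, hα, hδ, hp, hf'⟩ := hg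
        have hp2 : 2 ≤ p.natDegree := by
          by_contra h1
          exact hg' ⟨dj_aff hα hδ hf' (by omega), ⟨α, δ, ε, p, hα, hδ, hp, hf'⟩⟩
        refine Or.inr fun u v h => ?_
        obtain ⟨u', v', h1, h2, h3⟩ := hx u v h
        refine ⟨_, _, h1.comp (mv_jon hf' _ _), ?_, ?_, SH.dj hδ hp (SH.of_le h3)⟩
        · rw [nd_lin hδ]; exact h2
        · have h5 : (p.comp v').natDegree = p.natDegree * v'.natDegree := natDegree_comp
          have h6 : v'.natDegree < (p.comp v').natDegree := by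
            rw [h5]
            have := h.1
            nlinarith
          rw [nd_lin hδ, natDegree_add_eq_right_of_natDegree_lt]
          · exact h6
          · exact lt_of_le_of_lt ((natDegree_C_mul_le _ _).trans h3) h6
      · exact absurd rfl hij
  · -- base
    intro i b hb x hx
    rw [inf₁] at hb
    obtain ⟨hbA, hbD⟩ := hb
    obtain ⟨a, b', c, d, e, g', hD', hf'⟩ := hbA
    have hc : c = 0 := aff_jon hf' (Dj_le_Jon hbD)
    subst hc
    rw [mul_zero, sub_zero] at hD'
    have ha : a ≠ 0 := left_ne_zero_of_mul hD'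
    have hd : d ≠ 0 := right_ne_zero_of_mul hD'
    have hf2 : ∀ x y, b (x, y) = (a * x + (C b' * X + C e : k[X]).eval y, d * y + g') := by
      intro x y
      rw [hf']
      simp [add_assoc]
    have hac : Ac (C b' * X + C e : k[X]) := ac_of_natDegree natDegree_linear_le
    cases i
    · intro u v h
      obtain ⟨u', v', h1, h2, h3⟩ := hx u v h
      refine ⟨_, _, h1.comp (mv_jon hf2 _ _), ?_, ?_⟩
      · rw [nd_lin hd]; exact h2
      · rw [nd_lin hd]
        refine (natDegree_add_le _ _).trans (max_le ((natDegree_C_mul_le _ _).trans h3) ?_)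
        have : (C b' * X + C e : k[X]).comp v' = C b' * v' + C e := by simp
        rw [this]
        exact nd_lin_le _ _ _
    · rcases hx with hx | hx
      · exact Or.inl (mul_mem hbD hx)
      · refine Or.inr fun u v h => ?_
        obtain ⟨u', v', h1, h2, h3, h4⟩ := hx u v h
        refine ⟨_, _, h1.comp (mv_jon hf2 _ _), ?_, ?_, SH.dj hd hac h4⟩
        · rw [nd_lin hd]; exact h2
        · rw [nd_lin hd]
          have : (C b' * X + C e : k[X]).comp v' = C b' * v' + C e := by simp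
          rw [this, natDegree_add_eq_left_of_natDegree_lt]
          · rw [natDegree_C_mul ha]; exact h3
          · rw [natDegree_C_mul ha]
            exact lt_of_le_of_lt (nd_lin_le _ _ _) h3

end inf

end Q30.PA
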