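import Pool.Agent.Q30.PA.Pp1

/-!
# The second ping-pong
-/

set_option autoImplicit false

namespace Q30.PA

open Polynomial

variable {k : Type} [Field k] [Infinite k]

theorem Mv.unique {f : Equiv.Perm (k × k)} {u v u' v' u'' v'' : k[X]} (h : Mv f u v u' v')
    (h' : Mv f u v u'' v'') : u' = u'' ∧ v' = v'' := by
  constructor
  · apply Polynomial.funext
    intro t
    have h1 := (h t).symm.trans (h' t)
    exact congrArg Prod.fst h1
  · apply Polynomial.funext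
    intro t
    have h1 := (h t).symm.trans (h' t)
    exact congrArg Prod.snd h1

omit [Infinite k] in
theorem PP.start {p : k[X]} (hp : ¬ Ac p) : PP p X := by
  refine ⟨natDegree_X.ge, fun q hq => ?_⟩
  rw [natDegree_X, comp_X]
  refine lt_of_lt_of_le one_lt_two (natDegree_of_not_ac fun h => hp ?_)
  have h1 : p = (p + q) - q := by ring
  rw [h1]
  exact h.sub (Ac.of_ad hq)

omit [Infinite k] in
theorem not_ac_of {f : Equiv.Perm (k × k)} {α δ ε : k} {p : k[X]} (hα : α ≠ 0) (hδ : δ ≠ 0)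
    (hf : ∀ x y, f (x, y) = (α * x + p.eval y, δ * y + ε)) (hD : f ∉ Dj k) : ¬ Ac p :=
  fun hp => hD ⟨α, δ, ε, p, hα, hδ, hp, hf⟩

theorem inter₂ {f : Equiv.Perm (k × k)} (h1 : f ∈ Hg k) (h2 : f ∈ Jon k) : f ∈ Dj k := by
  by_contra hD
  obtain ⟨α, δ, ε, p, hα, hδ, hf⟩ := h2
  have hp := not_ac_of hα hδ hf hD
  obtain ⟨u', v', h3, h4, -⟩ := ping₁ f h1 hD _ _ (PP.start hp)
  obtain ⟨-, h5⟩ := h3.unique (mv_jon hf p X)
  rw [h5, nd_lin hδ] at h4
  exact lt_irrefl _ h4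

/-- the factors of the second ping-pong -/
def Γ₂ (k : Type) [Field k] : Bool → Subgroup (Equiv.Perm (k × k))
  | false => Hg k
  | true => Jon k

def S₂ (r : k[X]) : Bool → Set (Equiv.Perm (k × k))
  | false => {f | ∃ u u' v' : k[X], (u = r ∨ u = X) ∧ Mv f u X u' v' ∧ 1 < v'.natDegree ∧ SH u' v'}
  | true => {f | (f ∈ Jon k ∧ f ∉ Dj k) ∨
      ∃ u u' v' : k[X], (u = r ∨ u = X) ∧ Mv f u X u' v' ∧ 1 < v'.natDegree ∧ PP u' v'}

omit [Infinite k] in
theorem Dj_le_Hg : Dj k ≤ Hg k := le_sup_right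

theorem inf₂ : (⨅ j, Γ₂ k j) = Dj k := by
  rw [iInf_bool_eq]
  apply le_antisymm
  · rintro f ⟨h1, h2⟩
    exact inter₂ h2 h1
  · exact le_inf Dj_le_Jon Dj_le_Hg

omit [Infinite k] in
theorem sup₂ : (⨆ j, Γ₂ k j) = Hg k ⊔ Jon k := by
  rw [iSup_bool_eq, sup_comm]
  rfl

theorem inj₂ {r : k[X]} (hr : ¬ Ac r) : Function.Injective (amalgMap (Γ₂ k)) := by
  have hX : SH (X : k[X]) X := SH.of_le le_rfl
  have hr' := PP.start hr
  refine amalg_injective (Γ₂ k) (S₂ r) (sup_pingpong (Γ₂ k) (S₂ r) ?_ ?_ ?_).1 ?_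
  · -- one letter
    intro i g hg hg'
    rw [inf₂] at hg'
    cases i
    · obtain ⟨u', v', h3, h4, h5⟩ := ping₁ g hg hg' _ _ hr'
      rw [natDegree_X] at h4
      exact ⟨r, u', v', Or.inl rfl, h3, h4, h5⟩
    · exact Or.inl ⟨hg, hg'⟩
  · -- products
    intro i j hij g hg hg' x hx
    rw [inf₂] at hg'
    cases i
    · cases j
      · exact absurd rfl hij
      · rcases hx with ⟨⟨α, δ, ε, p, hα, hδ, hx⟩, hxD⟩ | ⟨u, u', v', hu, h1, h2, h3⟩
        · have hp := not_ac_of hα hδ hx hxD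
          have h1 := SH.jon (α := α) (ε := ε) hδ hp natDegree_X.ge hX
          obtain ⟨u', v', h3, h4, h5⟩ := ping₁ g hg hg' _ _ h1
          rw [nd_lin hδ, natDegree_X] at h4
          exact ⟨X, u', v', Or.inr rfl, (mv_jon hx X X).comp h3, h4, h5⟩
        · obtain ⟨u'', v'', h4, h5, h6⟩ := ping₁ g hg hg' _ _ h3
          exact ⟨u, u'', v'', hu, h1.comp h4, h2.trans h5, h6⟩
    · cases j
      · obtain ⟨α, δ, ε, p, hα, hδ, hg⟩ := hg
        have hp := not_ac_of hα hδ hg hg'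
        obtain ⟨u, u', v', hu, h1, h2, h3⟩ := hx
        refine Or.inr ⟨u, _, _, hu, h1.comp (mv_jon hg _ _), ?_, SH.jon hδ hp h2.le h3⟩
        rw [nd_lin hδ]
        exact h2
      · exact absurd rfl hij
  · -- base
    intro i b hb x hx
    rw [inf₂] at hb
    have hbD := hb
    obtain ⟨α, δ, ε, p, hα, hδ, hp, hb⟩ := hb
    cases i
    · obtain ⟨u, u', v', hu, h1, h2, h3⟩ := hx
      refine ⟨u, _, _, hu, h1.comp (mv_jon hb _ _), ?_, SH.dj hδ hp h3⟩
      rw [nd_lin hδ]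
      exact h2
    · rcases hx with ⟨hx, hxD⟩ | ⟨u, u', v', hu, h1, h2, h3⟩
      · refine Or.inl ⟨mul_mem (Dj_le_Jon hbD) hx, fun h => hxD ?_⟩
        rwa [Subgroup.mul_mem_cancel_left _ hbD] at h
      · refine Or.inr ⟨u, _, _, hu, h1.comp (mv_jon hb _ _), ?_, PP.dj hα hδ hp h3⟩
        rw [nd_lin hδ]
        exact h2
  · -- the identity
    have key : ∀ u u' v' : k[X], Mv 1 u X u' v' → ¬ 1 < v'.natDegree := by
      intro u u' v' h h2
      have h3 : Mv 1 u X u (X : k[X]) := fun t => rfl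
      rw [(h.unique h3).2, natDegree_X] at h2
      exact lt_irrefl _ h2
    intro i
    cases i
    · rintro ⟨u, u', v', hu, h1, h2, h3⟩
      exact key _ _ _ h1 h2
    · rintro (⟨-, h⟩ | ⟨u, u', v', hu, h1, h2, h3⟩)
      · exact h (one_mem _)
      · exact key _ _ _ h1 h2

end Q30.PA
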