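import Pool.Agent.Q30.PA.Fin
import Pool.Agent.Q30.PA.Pp0

/-!
# The de Jonquières group is solvable; the group `Γ₀`
-/

set_option autoImplicit false

namespace Q30.PA

open Polynomial Monoid
open Function (Injective)

theorem solvable_of_hom {G Q : Type} [Group G] [Group Q] (π : G →* Q)
    (h1 : Group.IsSolvable π.ker) (h2 : ∀ a b : Q, a * b = b * a) : Group.IsSolvable G := by
  have : Group.IsSolvable Q := Group.isSolvable_of_comm h2
  exact Group.isSolvable_of_ker_le_range π.ker.subtype π (by rw [Subgroup.range_subtype])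

variable {k : Type} [Field k]

theorem jon_par (f : Jon k) : ∃ α δ ε p, α ≠ 0 ∧ δ ≠ 0 ∧ Par (f : Equiv.Perm (k × k)) α δ ε p :=
  f.2

/-- the multipliers -/
noncomputable def muHom (k : Type) [Field k] : Jon k →* (k × k)ˣ :=
  MonoidHom.toHomUnits
    { toFun := fun f => mu (f : Equiv.Perm (k × k))
      map_one' := by
        show mu (1 : Equiv.Perm (k × k)) = 1
        unfold mu
        simp
      map_mul' := fun f f' => by
        obtain ⟨α, δ, ε, p, -, -, hf⟩ := jon_par f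
        obtain ⟨α', δ', ε', p', -, -, hf'⟩ := jon_par f'
        show mu ((f : Equiv.Perm (k × k)) * (f' : Equiv.Perm (k × k))) =
          mu (f : Equiv.Perm (k × k)) * mu (f' : Equiv.Perm (k × k))
        rw [mu_par (jon_mul hf hf'), mu_par hf, mu_par hf']
        rfl }

theorem muHom_ker {f : Jon k} (h : f ∈ (muHom k).ker) : ∃ ε p, Par (f : Equiv.Perm (k × k)) 1 1 ε p := by
  obtain ⟨α, δ, ε, p, -, -, hf⟩ := jon_par f
  have h1 : mu (f : Equiv.Perm (k × k)) = 1 := congrArg Units.val (MonoidHom.mem_ker.1 h)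
  rw [mu_par hf] at h1
  have h2 : α = 1 := congrArg Prod.fst h1
  have h3 : δ = 1 := congrArg Prod.snd h1
  subst h2 h3
  exact ⟨ε, p, hf⟩

/-- the translation part -/
def trHom (k : Type) [Field k] : (muHom k).ker →* Multiplicative k where
  toFun f := Multiplicative.ofAdd (((f : Jon k) : Equiv.Perm (k × k)) (0, 0)).2
  map_one' := rfl
  map_mul' f f' := by
    obtain ⟨ε, p, hf⟩ := muHom_ker f.2
    obtain ⟨ε', p', hf'⟩ := muHom_ker f'.2
    rw [← ofAdd_add]
    congr 1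
    show ((((f : Jon k) : Equiv.Perm (k × k)) * ((f' : Jon k) : Equiv.Perm (k × k))) (0, 0)).2 = _
    rw [jon_mul hf hf', hf, hf']
    simp only
    ring

theorem jon_solvable : Group.IsSolvable (Jon k) := by
  refine solvable_of_hom (muHom k) (solvable_of_hom (trHom k) ?_ fun a b => mul_comm a b)
    fun a b => mul_comm a b
  apply Group.isSolvable_of_comm
  rintro ⟨⟨⟨f, hf1⟩, hf2⟩, hf3⟩ ⟨⟨⟨f', hf1'⟩, hf2'⟩, hf3'⟩
  apply Subtype.ext
  apply Subtype.ext
  apply Subtype.ext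
  show f * f' = f' * f
  obtain ⟨ε, p, hf⟩ := muHom_ker hf2
  obtain ⟨ε', p', hf'⟩ := muHom_ker hf2'
  have h1 : (f (0, 0)).2 = 0 := congrArg Multiplicative.toAdd (MonoidHom.mem_ker.1 hf3)
  have h1' : (f' (0, 0)).2 = 0 := congrArg Multiplicative.toAdd (MonoidHom.mem_ker.1 hf3')
  have hf4 : ∀ x y, f (x, y) = (1 * x + p.eval y, 1 * y + ε) := hf
  have hf4' : ∀ x y, f' (x, y) = (1 * x + p'.eval y, 1 * y + ε') := hf'
  rw [hf4] at h1
  rw [hf4'] at h1'
  simp only [mul_zero, zero_add] at h1 h1'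
  subst h1 h1'
  apply Equiv.ext
  rintro ⟨x, y⟩
  rw [Equiv.Perm.mul_apply, Equiv.Perm.mul_apply, hf4, hf4', hf4, hf4']
  ext <;> simp only [one_mul, add_zero]
  ring

/-! ### the group fixing the origin -/

/-- the stabilizer of the origin -/
def Fx (k : Type) [Field k] : Subgroup (Equiv.Perm (k × k)) :=
  MulAction.stabilizer (Equiv.Perm (k × k)) ((0, 0) : k × k)

theorem mem_Fx {f : Equiv.Perm (k × k)} : f ∈ Fx k ↔ f (0, 0) = (0, 0) := Iff.rfl

def Γ₀ (k : Type) [Field k] : Bool → Subgroup (Equiv.Perm (k × k))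
  | false => Aff k ⊓ Fx k
  | true => Dj k ⊓ Fx k

def S₀ (k : Type) [Field k] : Bool → Set (Equiv.Perm (k × k))
  | false => {f | ∃ u u' v' : k[X], (u = X ^ 2 ∨ u = X) ∧ Mv f u X u' v' ∧ 1 < v'.natDegree ∧
      u'.natDegree ≤ v'.natDegree}
  | true => {f | (f ∈ Dj k ∧ f ∉ Aff k) ∨
      ∃ u u' v' : k[X], (u = X ^ 2 ∨ u = X) ∧ Mv f u X u' v' ∧ 1 < v'.natDegree ∧
        v'.natDegree < u'.natDegree}

theorem inf₀ : (⨅ j, Γ₀ k j) = (Aff k ⊓ Fx k) ⊓ (Dj k ⊓ Fx k) := by
  rw [iInf_bool_eq, inf_comm]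
  rfl

theorem dj_step {α δ ε : k} {p u v : k[X]} (hδ : δ ≠ 0) (hp : 2 ≤ p.natDegree)
    (hv : 1 ≤ v.natDegree) (h : u.natDegree ≤ v.natDegree) :
    (C δ * v + C ε).natDegree < (C α * u + p.comp v).natDegree := by
  have h5 : (p.comp v).natDegree = p.natDegree * v.natDegree := natDegree_comp
  have h6 : v.natDegree < (p.comp v).natDegree := by
    rw [h5]
    nlinarith
  rw [nd_lin hδ, natDegree_add_eq_right_of_natDegree_lt]
  · exact h6
  · exact lt_of_le_of_lt ((natDegree_C_mul_le _ _).trans h) h6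

theorem inj₀ [Infinite k] : Injective (amalgMap (Γ₀ k)) := by
  have hX2 : (X : k[X]).natDegree < (X ^ 2 : k[X]).natDegree := by
    rw [natDegree_X, natDegree_X_pow]
    norm_num
  refine amalg_injective (Γ₀ k) (S₀ k) (sup_pingpong (Γ₀ k) (S₀ k) ?_ ?_ ?_).1 ?_
  · -- one letter
    intro i g hg hg'
    rw [inf₀] at hg'
    cases i
    · obtain ⟨⟨a, b, c, d, e, g', hD', hf'⟩, hg0⟩ := hg
      have hc : c ≠ 0 := fun hc => hg'
        ⟨⟨⟨a, b, c, d, e, g', hD', hf'⟩, hg0⟩, ⟨aff_dj hD' hf' hc, hg0⟩⟩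
      obtain ⟨h1, h2⟩ := aff_step (a := a) (b := b) (d := d) (e := e) (g := g') hc hX2
      refine ⟨X ^ 2, _, _, Or.inl rfl, mv_aff hf' _ _, ?_, ?_⟩
      · rw [h1, natDegree_X_pow]; norm_num
      · rw [h1]; exact h2
    · exact Or.inl ⟨hg.1, fun h => hg' ⟨⟨h, hg.2⟩, hg⟩⟩
  · -- products
    intro i j hij g hg hg' x hx
    rw [inf₀] at hg'
    cases i
    · cases j
      · exact absurd rfl hij
      · obtain ⟨⟨a, b, c, d, e, g', hD', hf'⟩, hg0⟩ := hg
        have hc : c ≠ 0 := fun hc => hg'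
          ⟨⟨⟨a, b, c, d, e, g', hD', hf'⟩, hg0⟩, ⟨aff_dj hD' hf' hc, hg0⟩⟩
        rcases hx with ⟨⟨α, δ, ε, p, hα, hδ, hp, hx'⟩, hxA⟩ | ⟨u, u', v', hu, h1, h2, h3⟩
        · have hp2 : 2 ≤ p.natDegree := by
            by_contra h1
            exact hxA (dj_aff hα hδ hx' (by omega))
          have h1 := dj_step (α := α) (ε := ε) hδ hp2 natDegree_X.ge (le_refl (X : k[X]).natDegree)
          obtain ⟨h2, h3⟩ := aff_step (a := a) (b := b) (d := d) (e := e) (g := g') hc h1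
          refine ⟨X, _, _, Or.inr rfl, (mv_jon hx' X X).comp (mv_aff hf' _ _), ?_, ?_⟩
          · rw [h2]
            rwa [nd_lin hδ, natDegree_X] at h1
          · rw [h2]; exact h3
        · obtain ⟨h5, h6⟩ := aff_step (a := a) (b := b) (d := d) (e := e) (g := g') hc h3
          refine ⟨u, _, _, hu, h1.comp (mv_aff hf' _ _), ?_, ?_⟩
          · rw [h5]; exact h2.trans h3
          · rw [h5]; exact h6
    · cases j
      · obtain ⟨⟨α, δ, ε, p, hα, hδ, hp, hf'⟩, hg0⟩ := hg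
        have hp2 : 2 ≤ p.natDegree := by
          by_contra h1
          exact hg' ⟨⟨dj_aff hα hδ hf' (by omega), hg0⟩, ⟨⟨α, δ, ε, p, hα, hδ, hp, hf'⟩, hg0⟩⟩
        obtain ⟨u, u', v', hu, h1, h2, h3⟩ := hx
        refine Or.inr ⟨u, _, _, hu, h1.comp (mv_jon hf' _ _), ?_, dj_step hδ hp2 h2.le h3⟩
        rw [nd_lin hδ]
        exact h2
      · exact absurd rfl hij
  · -- base
    intro i b hb x hx
    rw [inf₀] at hb
    obtain ⟨⟨hbA, -⟩, ⟨hbD, -⟩⟩ := hb
    have hbA0 := hbA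
    obtain ⟨a, b', c, d, e, g', hD', hf'⟩ := hbA
    have hc : c = 0 := aff_jon hf' (Dj_le_Jon hbD)
    subst hc
    rw [mul_zero, sub_zero] at hD'
    have ha : a ≠ 0 := left_ne_zero_of_mul hD'
    have hd : d ≠ 0 := right_ne_zero_of_mul hD'
    have hf2 : ∀ x y, b (x, y) = (a * x + (C b' * X + C e : k[X]).eval y, d * y + g') := by
      intro x y
      rw [hf']
      simp [add_assoc]
    have hco : ∀ v' : k[X], (C b' * X + C e : k[X]).comp v' = C b' * v' + C e := fun v' => by simp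
    cases i
    · obtain ⟨u, u', v', hu, h1, h2, h3⟩ := hx
      refine ⟨u, _, _, hu, h1.comp (mv_jon hf2 _ _), ?_, ?_⟩
      · rw [nd_lin hd]; exact h2
      · rw [nd_lin hd]
        refine (natDegree_add_le _ _).trans (max_le ((natDegree_C_mul_le _ _).trans h3) ?_)
        rw [hco]
        exact nd_lin_le _ _ _
    · rcases hx with ⟨hx, hxA⟩ | ⟨u, u', v', hu, h1, h2, h3⟩
      · refine Or.inl ⟨mul_mem hbD hx, fun h => hxA ?_⟩
        rwa [Subgroup.mul_mem_cancel_left _ hbA0] at h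
      · refine Or.inr ⟨u, _, _, hu, h1.comp (mv_jon hf2 _ _), ?_, ?_⟩
        · rw [nd_lin hd]; exact h2
        · rw [nd_lin hd, hco, natDegree_add_eq_left_of_natDegree_lt]
          · rw [natDegree_C_mul ha]; exact h3
          · rw [natDegree_C_mul ha]
            exact lt_of_le_of_lt (nd_lin_le _ _ _) h3
  · -- the identity
    have key : ∀ u u' v' : k[X], Mv 1 u X u' v' → ¬ 1 < v'.natDegree := by
      intro u u' v' h h2
      have h3 : Mv 1 u X u (X : k[X]) := fun t => rfl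
      rw [(h.unique h3).2, natDegree_X] at h2
      exact lt_irrefl _ h2
    intro i
    cases i
    · rintro ⟨u, u', v', hu, h1, h2, h3⟩
      exact key _ _ _ h1 h2
    · rintro (⟨-, h⟩ | ⟨u, u', v', hu, h1, h2, h3⟩)
      · exact h (one_mem _)
      · exact key _ _ _ h1 h2

end Q30.PA
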