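import Pool.Agent.Q30.PA.Pp2

/-!
# Conjugation of additive de Jonquières maps
-/

set_option autoImplicit false

namespace Q30.PA

open Polynomial

variable {k : Type} [Field k]

def Par (f : Equiv.Perm (k × k)) (α δ ε : k) (p : k[X]) : Prop :=
  ∀ x y, f (x, y) = (α * x + p.eval y, δ * y + ε)

theorem jstep {f f' b : Equiv.Perm (k × k)} {α δ ε α' δ' ε' a₀ d₀ e₀ : k} {p p' P : k[X]}
    (hf : Par f α δ ε p) (hf' : Par f' α' δ' ε' p') (hb : Par b a₀ d₀ e₀ P) (ha₀ : a₀ ≠ 0)
    (hd₀ : d₀ ≠ 0) (h : f * b = b * f') :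
    α' = α ∧ δ' = δ ∧ δ * e₀ + ε = d₀ * ε' + e₀ ∧
      ∀ y, α * P.eval y + p.eval (d₀ * y + e₀) = a₀ * p'.eval y + P.eval (δ' * y + ε') := by
  have key : ∀ x y, (α * (a₀ * x + P.eval y) + p.eval (d₀ * y + e₀), δ * (d₀ * y + e₀) + ε) =
      (a₀ * (α' * x + p'.eval y) + P.eval (δ' * y + ε'), d₀ * (δ' * y + ε') + e₀) := by
    intro x y
    have h1 := DFunLike.congr_fun h (x, y)
    rw [Equiv.Perm.mul_apply, Equiv.Perm.mul_apply, hb, hf, hf', hb] at h1
    exact h1
  have k1 : ∀ x y, α * (a₀ * x + P.eval y) + p.eval (d₀ * y + e₀) =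
      a₀ * (α' * x + p'.eval y) + P.eval (δ' * y + ε') := fun x y => congrArg Prod.fst (key x y)
  have k2 : ∀ y, δ * (d₀ * y + e₀) + ε = d₀ * (δ' * y + ε') + e₀ :=
    fun y => congrArg Prod.snd (key 0 y)
  refine ⟨?_, ?_, ?_, fun y => ?_⟩
  · have h1 := k1 1 0
    have h0 := k1 0 0
    apply mul_left_cancel₀ ha₀
    linear_combination h0 - h1
  · have h1 := k2 1
    have h0 := k2 0
    apply mul_left_cancel₀ hd₀
    linear_combination h0 - h1
  · have h0 := k2 0
    linear_combination h0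
  · have h0 := k1 0 y
    linear_combination h0

section inf

variable [Infinite k]

theorem jexp {b : Equiv.Perm (k × k)} (hb : b ∈ Jon k) (hbH : b ∉ Hg k) :
    ∃ m : ℕ, 2 ≤ m ∧ ∀ {f f' : Equiv.Perm (k × k)} {α δ ε α' δ' ε' : k} {p p' : k[X]},
      Par f α δ ε p → Par f' α' δ' ε' p' → δ ≠ 0 → Ac p → Ac p' → f * b = b * f' →
      α = δ ^ m ∧ α' = α ∧ δ' = δ := by
  obtain ⟨a₀, d₀, e₀, P, ha₀, hd₀, hb⟩ := hb
  have hP : ¬ Ac P := not_ac_of ha₀ hd₀ hb fun h => hbH (Dj_le_Hg h)
  obtain ⟨m, hm, key⟩ := exists_exp hP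
  refine ⟨m, hm, fun {f f' α δ ε α' δ' ε' p p'} hf hf' hδ hp hp' h => ?_⟩
  obtain ⟨h1, h2, h3, h4⟩ := jstep hf hf' hb ha₀ hd₀ h
  refine ⟨key α δ ε' hδ ?_, h1, h2⟩
  have h5 : C α * P - P.comp (C δ * X + C ε') = C a₀ * p' - p.comp (C d₀ * X + C e₀) := by
    apply Polynomial.funext
    intro y
    simp only [eval_sub, eval_mul, eval_C, eval_comp, eval_add, eval_X]
    have h6 := h4 y
    rw [h2] at h6
    linear_combination h6
  rw [h5]
  exact (hp'.smul _).sub (hp.comp_lin _ _)

/-- the lower left entry does not vanish -/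
theorem c_ne {a : Equiv.Perm (k × k)} {A B Cc D : k[X]} {e g : k} (hA : IsAd A) (hB : IsAd B)
    (_hC : IsAd Cc) (hD : IsAd D)
    (ha : ∀ x y, a (x, y) = (A.eval x + B.eval y + e, Cc.eval x + D.eval y + g))
    (hinv : AdF a⁻¹) (hJ : a ∉ Jon k) : Cc ≠ 0 := by
  rintro rfl
  apply hJ
  obtain ⟨A', B', C', D', e', g', hA', hB', hC', hD', ha'⟩ := hinv
  have key : ∀ x y, (A.eval (A'.eval x + B'.eval y + e') + B.eval (C'.eval x + D'.eval y + g') + e,
      (0 : k[X]).eval (A'.eval x + B'.eval y + e') + D.eval (C'.eval x + D'.eval y + g') + g) =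
      (x, y) := by
    intro x y
    have h1 : a (a⁻¹ (x, y)) = (x, y) := Equiv.apply_symm_apply a _
    rw [ha', ha] at h1
    exact h1
  have k1 : ∀ x y, A.eval (A'.eval x) + A.eval (B'.eval y) + A.eval e' +
      (B.eval (C'.eval x) + B.eval (D'.eval y) + B.eval g') + e = x := by
    intro x y
    have := congrArg Prod.fst (key x y)
    simp only at this
    rw [hA (A'.eval x + B'.eval y), hA (A'.eval x), hB (C'.eval x + D'.eval y),
      hB (C'.eval x)] at this
    exact this
  have k2 : ∀ x y, D.eval (C'.eval x) + D.eval (D'.eval y) + D.eval g' + g = y := by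
    intro x y
    have := congrArg Prod.snd (key x y)
    simp only [eval_zero, zero_add] at this
    rw [hD (C'.eval x + D'.eval y), hD (C'.eval x)] at this
    exact this
  have hC0 : C'.eval 0 = 0 := hC'.at_zero
  have hD0 : D'.eval 0 = 0 := hD'.at_zero
  have hA0 : A'.eval 0 = 0 := hA'.at_zero
  have hDC : ∀ x, D.eval (C'.eval x) = 0 := by
    intro x
    have h1 := k2 x 0
    have h2 := k2 0 0
    rw [hC0, hD.at_zero] at h2
    linear_combination h1 - h2
  have hDD : D.comp D' = X := by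
    apply Polynomial.funext
    intro y
    rw [eval_comp, eval_X]
    have h1 := k2 0 y
    have h2 := k2 0 0
    rw [hD0, hD.at_zero] at h2
    linear_combination h1 - h2
  have hDn := congrArg natDegree hDD
  rw [natDegree_comp, natDegree_X] at hDn
  have hD1 : D.natDegree = 1 := Nat.eq_one_of_mul_eq_one_right hDn
  have hC'0 : ∀ x, C'.eval x = 0 := by
    intro x
    by_contra hne
    have hC'n : C' ≠ 0 := by
      rintro rfl
      exact hne eval_zero
    have h1 := eq_zero_of_comp (pos_of_ne hC' hC'n) hDC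
    rw [h1, natDegree_zero] at hD1
    exact zero_ne_one hD1
  have hAA : A.comp A' = X := by
    apply Polynomial.funext
    intro x
    rw [eval_comp, eval_X]
    have h1 := k1 x 0
    have h2 := k1 0 0
    rw [hC'0] at h1 h2
    rw [hA0, hA.at_zero] at h2
    linear_combination h1 - h2
  have hAn := congrArg natDegree hAA
  rw [natDegree_comp, natDegree_X] at hAn
  have hA1 : A.natDegree = 1 := Nat.eq_one_of_mul_eq_one_right hAn
  obtain ⟨α, α₀, hAe⟩ := exists_eq_X_add_C_of_natDegree_le_one hA1.le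
  obtain ⟨δ, δ₀, hDe⟩ := exists_eq_X_add_C_of_natDegree_le_one hD1.le
  have hα : α ≠ 0 := by
    rintro rfl
    rw [hAe] at hA1
    simp at hA1
  have hδ : δ ≠ 0 := by
    rintro rfl
    rw [hDe] at hD1
    simp at hD1
  refine ⟨α, δ, δ₀ + g, B + C (α₀ + e), hα, hδ, fun x y => ?_⟩
  rw [ha, hAe, hDe]
  ext
  · simp only [eval_add, eval_mul, eval_C, eval_X]
    ring
  · simp only [eval_add, eval_mul, eval_C, eval_X, eval_zero]
    ring

omit [Infinite k] in
/-- the relations between the coefficients of `f` and `f'`, if `f a = a f'` -/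
theorem hstep {f f' a : Equiv.Perm (k × k)} {α δ ε α' δ' ε' c c' e g : k} {q q' A B Cc D : k[X]}
    (hf : Par f α δ ε (q + C c)) (hf' : Par f' α' δ' ε' (q' + C c')) (hq : IsAd q)
    (hA : IsAd A) (hC : IsAd Cc)
    (ha : ∀ x y, a (x, y) = (A.eval x + B.eval y + e, Cc.eval x + D.eval y + g))
    (h : f * a = a * f') :
    (∀ x, δ * Cc.eval x = Cc.eval (α' * x)) ∧
      (∀ x, α * A.eval x + q.eval (Cc.eval x) = A.eval (α' * x)) ∧
      δ * (Cc.eval 0 + D.eval 0 + g) + ε = Cc.eval (q'.eval 0 + c') + D.eval ε' + g := by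
  have key : ∀ x y, (α * (A.eval x + B.eval y + e) + (q + C c).eval (Cc.eval x + D.eval y + g),
      δ * (Cc.eval x + D.eval y + g) + ε) =
      (A.eval (α' * x + (q' + C c').eval y) + B.eval (δ' * y + ε') + e,
        Cc.eval (α' * x + (q' + C c').eval y) + D.eval (δ' * y + ε') + g) := by
    intro x y
    have h1 := DFunLike.congr_fun h (x, y)
    rw [Equiv.Perm.mul_apply, Equiv.Perm.mul_apply, ha, hf, hf', ha] at h1
    exact h1
  have k1 : ∀ x y, α * (A.eval x + B.eval y + e) + (q.eval (Cc.eval x) + q.eval (D.eval y + g) + c) =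
      A.eval (α' * x) + A.eval ((q' + C c').eval y) + B.eval (δ' * y + ε') + e := by
    intro x y
    have := congrArg Prod.fst (key x y)
    simp only at this
    rw [hA, eval_add, eval_C, add_assoc (Cc.eval x), hq] at this
    exact this
  have k2 : ∀ x y, δ * (Cc.eval x + D.eval y + g) + ε =
      Cc.eval (α' * x) + Cc.eval ((q' + C c').eval y) + D.eval (δ' * y + ε') + g := by
    intro x y
    have := congrArg Prod.snd (key x y)
    simp only at this
    rw [hC] at this
    exact this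
  refine ⟨fun x => ?_, fun x => ?_, ?_⟩
  · have h1 := k2 x 0
    have h0 := k2 0 0
    rw [mul_zero α', hC.at_zero] at h0
    linear_combination h1 - h0
  · have h1 := k1 x 0
    have h0 := k1 0 0
    rw [mul_zero α', hA.at_zero, hC.at_zero, hq.at_zero] at h0
    linear_combination h1 - h0
  · have h0 := k2 0 0
    rw [mul_zero α', mul_zero δ', zero_add ε', hC.at_zero, eval_add, eval_C] at h0
    rw [hC.at_zero]
    linear_combination h0

theorem exp_of {Cc : k[X]} {δ α' : k} {i : ℕ} (hi : Cc.coeff i ≠ 0)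
    (h : ∀ x, δ * Cc.eval x = Cc.eval (α' * x)) : δ = α' ^ i := by
  have h1 : C δ * Cc = Cc.comp (C α' * X) := by
    apply Polynomial.funext
    intro x
    rw [eval_mul, eval_C, eval_comp, eval_mul, eval_C, eval_X, h]
  have h2 := congrArg (fun p => p.coeff i) h1
  simp only [coeff_C_mul, comp_C_mul_X_coeff] at h2
  exact mul_right_cancel₀ hi (by linear_combination h2)

end inf

end Q30.PA
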