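import Pool.Agent.Q30.PA.Main

/-!
# Subgroups of the group of tame automorphisms of the plane
-/

set_option autoImplicit false

namespace Q30.PA

open Polynomial Monoid SimpleGraph
open Function (Injective)
open Q27.FJT
open Q182.Cyl (ClosedA)

section lin

variable {k : Type} [Field k] [CharZero k]

theorem IsAd.linear {q : k[X]} (hq : IsAd q) : q = C (q.eval 1) * X := by
  have h1 : ∀ n : ℕ, q.eval (n : k) = n * q.eval 1 := by
    intro n
    induction n with
    | zero => simp [IsAd.at_zero hq]
    | succ n ih =>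
      push_cast
      rw [hq, ih]
      ring
  have h2 : q - C (q.eval 1) * X = 0 := by
    refine Polynomial.eq_zero_of_infinite_isRoot _ (Set.infinite_of_injective_forall_mem
      (f := fun n : ℕ => (n : k)) Nat.cast_injective fun n => ?_)
    show eval (n : k) _ = 0
    rw [eval_sub, eval_mul, eval_C, eval_X, h1]
    ring
  rwa [sub_eq_zero] at h2

theorem Hg_zero : Hg k = Aff k := by
  rw [Hg, sup_eq_left]
  rintro f ⟨α, δ, ε, p, hα, hδ, ⟨q, c, hq, rfl⟩, hf⟩
  refine dj_aff hα hδ hf ?_
  rw [IsAd.linear hq]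
  exact natDegree_linear_le


theorem not_ac : ¬ Ac (X ^ 2 : k[X]) := by
  rintro ⟨q, c, hq, he⟩
  have h1 := congrArg natDegree he
  rw [IsAd.linear hq, natDegree_X_pow] at h1
  have h2 : (C (q.eval 1) * X + C c : k[X]).natDegree ≤ 1 := natDegree_linear_le
  omega

end lin

variable {C : ∀ (G : Type) [Group G], Prop}

theorem mem_sub (hC : ClosedA C) (hsol : ∀ (G : Type) [Group G], Group.IsSolvable G → C G)
    {G : Type} [Group G] (Γ : Bool → Subgroup G) (hinj : Injective (amalgMap Γ))
    (hfin : FinChains (Γ false) (Γ true)) (M : Subgroup G) (hM : M ≤ ⨆ i, Γ i)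
    (hv : ∀ b, ∀ g ∈ ⨆ i, Γ i, C ↥(M ⊓ (Γ b).map (MulAut.conj g).toMonoidHom)) : C M := by
  have hAm := push_amg (incl Γ)
  have hof : ∀ (b : Bool) (p : PushoutI (incl Γ)),
      p ∈ (PushoutI.of (φ := incl Γ) b).range ↔ amalgMap Γ p ∈ Γ b := by
    intro b p
    constructor
    · rintro ⟨x, rfl⟩
      rw [amalgMap_of]
      exact x.2
    · intro h
      refine ⟨⟨_, h⟩, hinj ?_⟩
      rw [amalgMap_of]
  have hOk : ∀ f w : PushoutI (incl Γ), Ok (PushoutI.of (φ := incl Γ) false).range
      (PushoutI.of (φ := incl Γ) true).range f w ↔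
      Ok (Γ false) (Γ true) (amalgMap Γ f) (amalgMap Γ w) := by
    intro f w
    unfold Ok
    rw [hof, hof, map_mul, map_mul, map_inv]
  have hfin' : FinChains (PushoutI.of (φ := incl Γ) false).range
      (PushoutI.of (φ := incl Γ) true).range := by
    intro b₁ a₁ b₂ a₂ b₃ a₃ h1 h2 h3 h4 h5 h6
    simp only [hof] at h1 h2 h3 h4 h5 h6
    have key := hfin _ _ _ _ _ _ h1 h2 h3 h4 h5 h6
    refine (key.preimage hinj.injOn).subset ?_
    intro f hf
    obtain ⟨k0, k1, k2, k3, k4, k5, k6⟩ := hf
    rw [hOk] at k0 k1 k2 k3 k4 k5 k6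
    simp only [map_mul, map_one] at k0 k1 k2 k3 k4 k5 k6
    exact ⟨k0, k1, k2, k3, k4, k5, k6⟩
  have hle : ∀ p : PushoutI (incl Γ), amalgMap Γ p ∈ ⨆ i, Γ i := by
    intro p
    induction p using PushoutI.induction_on with
    | of i g =>
      rw [amalgMap_of]
      exact (le_iSup Γ i) g.2
    | base h =>
      rw [amalgMap_base]
      exact (iInf_le Γ false).trans (le_iSup Γ false) h.2
    | mul x y hx hy =>
      rw [map_mul]
      exact mul_mem hx hy
  obtain ⟨M', hM'⟩ : ∃ M', M' = M.comap (amalgMap Γ) := ⟨_, rfl⟩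
  have hMm : ∀ p, p ∈ M' ↔ amalgMap Γ p ∈ M := by
    intro p
    rw [hM']
    rfl
  have hP : C M' := by
    refine hC.acyl M' M' _ (MonoidHom.id _) (atree (PushoutI.of (φ := incl Γ) false).range
      (PushoutI.of (φ := incl Γ) true).range) 8 (fun g => ⟨g, rfl⟩) (isTree hAm)
      (fun f v w h => atree_adj (f : PushoutI (incl Γ)) h)
      (fun f v w h => noInv (f : PushoutI (incl Γ)) v w h) ?_ ?_ ?_
    · intro v w hd
      refine ((finite_stab hAm hfin' v w hd).preimage
        (Subtype.val_injective (p := fun x => x ∈ M')).injOn).subset ?_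
      rintro f ⟨h1, h2⟩
      exact ⟨h1, h2⟩
    · have key : ∀ (b : Bool) (g : PushoutI (incl Γ)) (S : Subgroup M'),
          (∀ s ∈ S, g⁻¹ * (s : PushoutI (incl Γ)) * g ∈ (PushoutI.of (φ := incl Γ) b).range) →
          C S := by
        intro b g S hS
        let e : S →* ↥(M ⊓ (Γ b).map (MulAut.conj (amalgMap Γ g)).toMonoidHom) :=
          ((amalgMap Γ).comp (M'.subtype.comp S.subtype)).codRestrict _ (by
            intro s
            refine ⟨(hMm _).1 s.1.2, ?_⟩
            have h1 := (hof _ _).1 (hS s.1 s.2)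
            rw [map_mul, map_mul, map_inv] at h1
            refine ⟨_, h1, ?_⟩
            show amalgMap Γ g * ((amalgMap Γ g)⁻¹ * amalgMap Γ s.1.1 * amalgMap Γ g) *
              (amalgMap Γ g)⁻¹ = amalgMap Γ s.1.1
            group)
        refine hC.base.base.of_injective _ _ e ?_ (hv b _ (hle g))
        intro x y hxy
        have h1 : amalgMap Γ x.1.1 = amalgMap Γ y.1.1 := congrArg Subtype.val hxy
        exact Subtype.ext (Subtype.ext (hinj h1))
      intro v
      rcases vertex_cases v with ⟨g, rfl⟩ | ⟨g, rfl⟩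
      · exact key false g _ fun s hs => fix_vA.1 hs
      · exact key true g _ fun s hs => fix_vB.1 hs
    · intro W hW
      exact vc_mem hC hsol W hW
  have hr : (⨆ i, Γ i) ≤ (amalgMap Γ).range := range_amalgMap Γ
  let e : M →* M' := ((MonoidHom.ofInjective hinj).symm.toMonoidHom.comp
    (Subgroup.inclusion (hM.trans hr))).codRestrict M' (by
      intro m
      rw [hMm]
      have h1 := (MonoidHom.ofInjective hinj).apply_symm_apply (Subgroup.inclusion (hM.trans hr) m)
      have h2 : amalgMap Γ ((MonoidHom.ofInjective hinj).symm (Subgroup.inclusion (hM.trans hr) m)) =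
          m := congrArg Subtype.val h1
      show amalgMap Γ ((MonoidHom.ofInjective hinj).symm (Subgroup.inclusion (hM.trans hr) m)) ∈ M
      rw [h2]
      exact m.2)
  refine hC.base.base.of_injective _ _ e ?_ hP
  intro x y hxy
  have h1 : (MonoidHom.ofInjective hinj).symm (Subgroup.inclusion (hM.trans hr) x) =
      (MonoidHom.ofInjective hinj).symm (Subgroup.inclusion (hM.trans hr) y) :=
    congrArg Subtype.val hxy
  exact Subgroup.inclusion_injective _ ((MonoidHom.ofInjective hinj).symm.injective h1)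

theorem conj_C (hC : ClosedA C) {G : Type} [Group G] (M A : Subgroup G) (g : G) (hA : C A) :
    C ↥(M ⊓ A.map (MulAut.conj g).toMonoidHom) := by
  refine conj_mem hC A.subtype Subtype.val_injective hA g _ ?_
  rintro s ⟨-, a, ha, rfl⟩
  refine ⟨⟨a, ha⟩, ?_⟩
  show a = g⁻¹ * (g * a * g⁻¹) * g
  group

variable {k : Type} [Field k]

section zero

variable [CharZero k]

/-- **subgroups in characteristic `0`** -/
theorem main_zero (hC : ClosedA C)
    (hsol : ∀ (G : Type) [Group G], Group.IsSolvable G → C G) (M : Subgroup (Equiv.Perm (k × k)))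
    (hM : M ≤ Tame k) :
    C M ↔ ∀ g ∈ Tame k, C ↥(M ⊓ (Aff k).map (MulAut.conj g).toMonoidHom) := by
  constructor
  · intro h g _
    exact hC.base.base.of_injective _ _ (Subgroup.inclusion inf_le_left)
      (Subgroup.inclusion_injective _) h
  · intro h
    have h2 : Tame k = ⨆ i, Γ₂ k i := by rw [tame_eq, sup₂]
    refine mem_sub hC hsol (Γ₂ k) (inj₂ not_ac) finChains M (by rw [← h2]; exact hM) ?_
    intro b g hg
    rw [← h2] at hg
    cases b
    · have h3 := h g hg
      rw [← Hg_zero] at h3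
      exact h3
    · exact conj_C hC _ _ _ (hsol _ jon_solvable)

end zero

end Q30.PA
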